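import Pool.Agent.Lib.MP_4f027a_co.Words

/-!
# Arrangements: lists of labels on which the letters act
-/

namespace Pool.Agent.BSq

open List

/-- exchange the entries at positions `i`, `i+1` -/
def sw : ℕ → List ℕ → List ℕ
  | 0, x :: y :: l => y :: x :: l
  | i + 1, x :: l => x :: sw i l
  | _, l => l

/-- the entries at positions `i`, `i+1` are increasing -/
def asc : ℕ → List ℕ → Prop
  | 0, x :: y :: _ => x < y
  | i + 1, _ :: l => asc i l
  | _, _ => False

/-- the entries at positions `i`, `i+1` are decreasing -/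
def des : ℕ → List ℕ → Prop
  | 0, x :: y :: _ => y < x
  | i + 1, _ :: l => des i l
  | _, _ => False

/-- the pair of the entries at positions `i`, `i+1` -/
def pr : ℕ → List ℕ → ℕ × ℕ
  | 0, x :: y :: _ => (x, y)
  | i + 1, _ :: l => pr i l
  | _, _ => (0, 0)

/-- put `x` at position `p` -/
def ins : ℕ → ℕ → List ℕ → List ℕ
  | 0, x, v => x :: v
  | p + 1, x, y :: v => y :: ins p x v
  | _ + 1, x, [] => [x]

@[simp] theorem sw_zero (x y : ℕ) (l : List ℕ) : sw 0 (x :: y :: l) = y :: x :: l := rfl
@[simp] theorem sw_succ (i x : ℕ) (l : List ℕ) : sw (i + 1) (x :: l) = x :: sw i l := rfl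
@[simp] theorem sw_nil (i : ℕ) : sw i [] = [] := by cases i <;> rfl
@[simp] theorem sw_single (i x : ℕ) : sw i [x] = [x] := by
  cases i with
  | zero => rfl
  | succ i => simp
@[simp] theorem asc_zero (x y : ℕ) (l : List ℕ) : asc 0 (x :: y :: l) ↔ x < y := Iff.rfl
@[simp] theorem asc_succ (i x : ℕ) (l : List ℕ) : asc (i + 1) (x :: l) ↔ asc i l := Iff.rfl
@[simp] theorem asc_nil (i : ℕ) : asc i [] ↔ False := by cases i <;> rfl
@[simp] theorem asc_single (i x : ℕ) : asc i [x] ↔ False := by
  cases i with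
  | zero => rfl
  | succ i => simp
@[simp] theorem des_zero (x y : ℕ) (l : List ℕ) : des 0 (x :: y :: l) ↔ y < x := Iff.rfl
@[simp] theorem des_succ (i x : ℕ) (l : List ℕ) : des (i + 1) (x :: l) ↔ des i l := Iff.rfl
@[simp] theorem des_nil (i : ℕ) : des i [] ↔ False := by cases i <;> rfl
@[simp] theorem des_single (i x : ℕ) : des i [x] ↔ False := by
  cases i with
  | zero => rfl
  | succ i => simp
@[simp] theorem pr_zero (x y : ℕ) (l : List ℕ) : pr 0 (x :: y :: l) = (x, y) := rfl
@[simp] theorem pr_succ (i x : ℕ) (l : List ℕ) : pr (i + 1) (x :: l) = pr i l := rfl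
@[simp] theorem ins_zero (x : ℕ) (v : List ℕ) : ins 0 x v = x :: v := by cases v <;> rfl
@[simp] theorem ins_succ (p x y : ℕ) (v : List ℕ) : ins (p + 1) x (y :: v) = y :: ins p x v := rfl
@[simp] theorem ins_nil (p x : ℕ) : ins p x [] = [x] := by cases p <;> rfl

theorem sw_length : ∀ (i : ℕ) (u : List ℕ), (sw i u).length = u.length
  | _, [] => by simp
  | _, [x] => by simp
  | 0, x :: y :: l => by simp
  | i + 1, x :: y :: l => by simp [sw_length i (y :: l)]

theorem sw_perm : ∀ (i : ℕ) (u : List ℕ), (sw i u).Perm u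
  | _, [] => by simp
  | _, [x] => by simp
  | 0, x :: y :: l => by simpa using List.Perm.swap x y l
  | i + 1, x :: y :: l => by simpa using sw_perm i (y :: l)

theorem sw_sw : ∀ (i : ℕ) (u : List ℕ), sw i (sw i u) = u
  | _, [] => by simp
  | _, [x] => by simp
  | 0, x :: y :: l => by simp
  | i + 1, x :: y :: l => by
    have := sw_sw i (y :: l)
    simp [this]

theorem sw_nodup {i : ℕ} {u : List ℕ} (h : u.Nodup) : (sw i u).Nodup :=
  (sw_perm i u).nodup_iff.mpr h

theorem asc_lt_length : ∀ {i : ℕ} {u : List ℕ}, asc i u → i + 1 < u.length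
  | _, [], h => by simp at h
  | _, [x], h => by simp at h
  | 0, x :: y :: l, _ => by simp
  | i + 1, x :: y :: l, h => by
    have := asc_lt_length (i := i) (u := y :: l) (by simpa using h)
    simp at this ⊢; omega

theorem asc_sw_iff_des : ∀ (i : ℕ) (u : List ℕ), asc i (sw i u) ↔ des i u
  | _, [] => by simp
  | _, [x] => by simp
  | 0, x :: y :: l => by simp
  | i + 1, x :: y :: l => by simp [asc_sw_iff_des i (y :: l)]

theorem asc_not_des : ∀ {i : ℕ} {u : List ℕ}, asc i u → ¬ des i u
  | _, [], h => by simp at h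
  | _, [x], h => by simp at h
  | 0, x :: y :: l, h => by simp at h ⊢; omega
  | i + 1, x :: y :: l, h => by
    have := asc_not_des (i := i) (u := y :: l) (by simpa using h)
    simpa using this

theorem asc_or_des : ∀ {i : ℕ} {u : List ℕ}, u.Nodup → i + 1 < u.length → asc i u ∨ des i u
  | _, [], _, h => by simp at h
  | _, [x], _, h => by simp at h
  | 0, x :: y :: l, h, _ => by
    have : x ≠ y := by rintro rfl; simp at h
    simp; omega
  | i + 1, x :: y :: l, h, h' => by
    have := asc_or_des (i := i) (u := y :: l) (List.nodup_cons.mp h).2 (by simp at h' ⊢; omega)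
    simpa using this

theorem asc_iff_pr : ∀ {i : ℕ} {u : List ℕ}, i + 1 < u.length → (asc i u ↔ (pr i u).1 < (pr i u).2)
  | _, [], h => by simp at h
  | _, [x], h => by simp at h
  | 0, x :: y :: l, _ => by simp
  | i + 1, x :: y :: l, h' => by
    have := asc_iff_pr (i := i) (u := y :: l) (by simp at h' ⊢; omega)
    simpa using this

theorem pr_mem : ∀ {i : ℕ} {u : List ℕ}, i + 1 < u.length → (pr i u).1 ∈ u ∧ (pr i u).2 ∈ u
  | _, [], h => by simp at h
  | _, [x], h => by simp at h
  | 0, x :: y :: l, _ => by simp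
  | i + 1, x :: y :: l, h' => by
    have := pr_mem (i := i) (u := y :: l) (by simp at h' ⊢; omega)
    simp only [pr_succ]
    exact ⟨List.mem_cons_of_mem _ this.1, List.mem_cons_of_mem _ this.2⟩

theorem pr_sw : ∀ {i : ℕ} {u : List ℕ}, i + 1 < u.length → pr i (sw i u) = ((pr i u).2, (pr i u).1)
  | _, [], h => by simp at h
  | _, [x], h => by simp at h
  | 0, x :: y :: l, _ => by simp
  | i + 1, x :: y :: l, h' => by
    have := pr_sw (i := i) (u := y :: l) (by simp at h' ⊢; omega)
    simpa using this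

theorem pr_sublist : ∀ {i : ℕ} {u : List ℕ}, i + 1 < u.length → [(pr i u).1, (pr i u).2] <+ u
  | _, [], h => by simp at h
  | _, [x], h => by simp at h
  | 0, x :: y :: l, _ => by simp
  | i + 1, x :: y :: l, h' => by
    have := pr_sublist (i := i) (u := y :: l) (by simp at h' ⊢; omega)
    exact this.trans (List.sublist_cons_self _ _)

/-! ### commuting letters -/

theorem sw_comm_aux : ∀ (i d : ℕ) (u : List ℕ),
    sw i (sw (i + 2 + d) u) = sw (i + 2 + d) (sw i u)
  | _, _, [] => by simp
  | _, _, [x] => by simp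
  | 0, d, x :: y :: l => by
    simp [show 0 + 2 + d = d + 1 + 1 by omega]
  | i + 1, d, x :: y :: l => by
    have := sw_comm_aux i d (y :: l)
    simp only [show i + 1 + 2 + d = (i + 2 + d) + 1 by omega, sw_succ, this]

theorem sw_comm {i j : ℕ} (h : Far i j) (u : List ℕ) : sw i (sw j u) = sw j (sw i u) := by
  rcases h with h | h
  · obtain ⟨d, rfl⟩ : ∃ d, j = i + 2 + d := ⟨j - i - 2, by omega⟩
    exact sw_comm_aux i d u
  · obtain ⟨d, rfl⟩ : ∃ d, i = j + 2 + d := ⟨i - j - 2, by omega⟩
    exact (sw_comm_aux j d u).symm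

theorem asc_sw_far_aux1 : ∀ (i d : ℕ) (u : List ℕ), asc i (sw (i + 2 + d) u) ↔ asc i u
  | _, _, [] => by simp
  | _, _, [x] => by simp
  | 0, d, x :: y :: l => by
    simp [show 0 + 2 + d = d + 1 + 1 by omega]
  | i + 1, d, x :: y :: l => by
    have := asc_sw_far_aux1 i d (y :: l)
    simp only [show i + 1 + 2 + d = (i + 2 + d) + 1 by omega, sw_succ, asc_succ, this]

theorem asc_sw_far_aux2 : ∀ (i d : ℕ) (u : List ℕ), asc (i + 2 + d) (sw i u) ↔ asc (i + 2 + d) u
  | _, _, [] => by simp
  | _, _, [x] => by simp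
  | 0, d, x :: y :: l => by
    simp [show 0 + 2 + d = d + 1 + 1 by omega]
  | i + 1, d, x :: y :: l => by
    have := asc_sw_far_aux2 i d (y :: l)
    simp only [show i + 1 + 2 + d = (i + 2 + d) + 1 by omega, sw_succ, asc_succ, this]

theorem asc_sw_far {i j : ℕ} (h : Far i j) (u : List ℕ) : asc i (sw j u) ↔ asc i u := by
  rcases h with h | h
  · obtain ⟨d, rfl⟩ : ∃ d, j = i + 2 + d := ⟨j - i - 2, by omega⟩
    exact asc_sw_far_aux1 i d u
  · obtain ⟨d, rfl⟩ : ∃ d, i = j + 2 + d := ⟨i - j - 2, by omega⟩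
    exact asc_sw_far_aux2 j d u

theorem pr_sw_far_aux1 : ∀ (i d : ℕ) (u : List ℕ), pr i (sw (i + 2 + d) u) = pr i u
  | _, _, [] => by simp
  | _, _, [x] => by simp
  | 0, d, x :: y :: l => by
    simp [show 0 + 2 + d = d + 1 + 1 by omega]
  | i + 1, d, x :: y :: l => by
    have := pr_sw_far_aux1 i d (y :: l)
    simp only [show i + 1 + 2 + d = (i + 2 + d) + 1 by omega, sw_succ, pr_succ, this]

theorem pr_sw_far_aux2 : ∀ (i d : ℕ) (u : List ℕ), pr (i + 2 + d) (sw i u) = pr (i + 2 + d) u
  | _, _, [] => by simp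
  | _, _, [x] => by simp
  | 0, d, x :: y :: l => by
    simp [show 0 + 2 + d = d + 1 + 1 by omega]
  | i + 1, d, x :: y :: l => by
    have := pr_sw_far_aux2 i d (y :: l)
    simp only [show i + 1 + 2 + d = (i + 2 + d) + 1 by omega, sw_succ, pr_succ, this]

theorem pr_sw_far {i j : ℕ} (h : Far i j) (u : List ℕ) : pr i (sw j u) = pr i u := by
  rcases h with h | h
  · obtain ⟨d, rfl⟩ : ∃ d, j = i + 2 + d := ⟨j - i - 2, by omega⟩
    exact pr_sw_far_aux1 i d u
  · obtain ⟨d, rfl⟩ : ∃ d, i = j + 2 + d := ⟨i - j - 2, by omega⟩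
    exact pr_sw_far_aux2 j d u

/-! ### words acting on arrangements -/

/-- every letter of the word meets an increasing pair -/
def valid : List ℕ → List ℕ → Prop
  | _, [] => True
  | u, i :: R => asc i u ∧ valid (sw i u) R

/-- final arrangement -/
def act : List ℕ → List ℕ → List ℕ
  | u, [] => u
  | u, i :: R => act (sw i u) R

/-- the list of crossings -/
def cr : List ℕ → List ℕ → List (ℕ × ℕ)
  | _, [] => []
  | u, i :: R => pr i u :: cr (sw i u) R

@[simp] theorem valid_nil (u : List ℕ) : valid u [] := trivial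
@[simp] theorem valid_cons (u : List ℕ) (i : ℕ) (R : List ℕ) :
    valid u (i :: R) ↔ asc i u ∧ valid (sw i u) R := Iff.rfl
@[simp] theorem act_nil (u : List ℕ) : act u [] = u := rfl
@[simp] theorem act_cons (u : List ℕ) (i : ℕ) (R : List ℕ) :
    act u (i :: R) = act (sw i u) R := rfl
@[simp] theorem cr_nil (u : List ℕ) : cr u [] = [] := rfl
@[simp] theorem cr_cons (u : List ℕ) (i : ℕ) (R : List ℕ) :
    cr u (i :: R) = pr i u :: cr (sw i u) R := rfl

theorem act_append : ∀ (R S u : List ℕ), act u (R ++ S) = act (act u R) S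
  | [], _, _ => rfl
  | i :: R, S, u => by simp [act_append R S]

theorem valid_append : ∀ (R S u : List ℕ), valid u (R ++ S) ↔ valid u R ∧ valid (act u R) S
  | [], _, _ => by simp
  | i :: R, S, u => by simp [valid_append R S, and_assoc]

theorem cr_append : ∀ (R S u : List ℕ), cr u (R ++ S) = cr u R ++ cr (act u R) S
  | [], _, _ => rfl
  | i :: R, S, u => by simp [cr_append R S]

theorem act_perm : ∀ (R u : List ℕ), (act u R).Perm u
  | [], _ => List.Perm.refl _
  | i :: R, u => (act_perm R (sw i u)).trans (sw_perm i u)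

theorem act_length (R u : List ℕ) : (act u R).length = u.length := (act_perm R u).length_eq

theorem cr_length : ∀ (R u : List ℕ), (cr u R).length = R.length
  | [], _ => rfl
  | i :: R, u => by simp [cr_length R]

theorem pr_act_far : ∀ (A u : List ℕ) (i : ℕ), (∀ x ∈ A, Far i x) → pr i (act u A) = pr i u
  | [], _, _, _ => rfl
  | x :: A, u, i, h => by
    rw [act_cons, pr_act_far A _ i (fun y hy => h y (List.mem_cons_of_mem _ hy))]
    exact pr_sw_far (h x List.mem_cons_self) u

/-! ### each crossing occurs once -/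

theorem sublist_sw : ∀ (i : ℕ) (u : List ℕ) (x y : ℕ), [x, y] <+ sw i u →
    [x, y] <+ u ∨ ((y, x) = pr i u ∧ i + 1 < u.length)
  | _, [], _, _, h => by simp at h
  | _, [w], _, _, h => by simp at h
  | 0, a :: b :: l, x, y, h => by
    rw [sw_zero] at h
    rcases List.sublist_cons_iff.mp h with h | ⟨r, hr, h⟩
    · left
      rcases List.sublist_cons_iff.mp h with h | ⟨r, hr, h⟩
      · exact h.trans ((List.sublist_cons_self _ _).trans (List.sublist_cons_self _ _))
      · rw [hr] at *
        exact List.Sublist.cons_cons _ (h.trans (List.sublist_cons_self _ _))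
    · simp only [List.cons.injEq] at hr
      obtain ⟨rfl, hr⟩ := hr
      subst hr
      rcases List.sublist_cons_iff.mp h with h | ⟨r, hr, h⟩
      · left
        exact (List.Sublist.cons_cons _ h).trans (List.sublist_cons_self _ _)
      · simp only [List.cons.injEq] at hr
        right
        rw [pr_zero, hr.1]
        simp
  | i + 1, a :: b :: l, x, y, h => by
    rw [sw_succ] at h
    rcases List.sublist_cons_iff.mp h with h | ⟨r, hr, h⟩
    · rcases sublist_sw i (b :: l) x y h with h | ⟨h, h'⟩
      · exact Or.inl (h.trans (List.sublist_cons_self _ _))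
      · right
        refine ⟨by simpa using h, ?_⟩
        simp at h' ⊢; omega
    · simp only [List.cons.injEq] at hr
      obtain ⟨rfl, hr⟩ := hr
      subst hr
      left
      have hy : y ∈ b :: l := by
        have : y ∈ sw i (b :: l) := h.subset (by simp)
        exact (sw_perm i _).subset this
      exact List.Sublist.cons_cons _ (by simpa using hy)

theorem not_sublist_sw : ∀ (i : ℕ) (u : List ℕ), u.Nodup → i + 1 < u.length →
    ¬ [(pr i u).1, (pr i u).2] <+ sw i u
  | _, [], _, h => by simp at h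
  | _, [w], _, h => by simp at h
  | 0, a :: b :: l, hn, _ => by
    intro h
    simp only [sw_zero, pr_zero] at h
    have hab : a ≠ b := by rintro rfl; simp at hn
    have hbl : b ∉ l := by simp at hn; tauto
    rcases List.sublist_cons_iff.mp h with h | ⟨r, hr, h⟩
    · have hb : b ∈ l := by
        rcases List.sublist_cons_iff.mp h with h | ⟨r, hr, h⟩
        · exact h.subset (by simp)
        · simp only [List.cons.injEq] at hr
          rw [← hr.2] at h
          exact h.subset (by simp)
      exact hbl hb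
    · simp only [List.cons.injEq] at hr
      exact hab hr.1
  | i + 1, a :: b :: l, hn, hl => by
    intro h
    simp only [sw_succ, pr_succ] at h
    have hl' : i + 1 < (b :: l).length := by simp at hl ⊢; omega
    rcases List.sublist_cons_iff.mp h with h | ⟨r, hr, h⟩
    · exact not_sublist_sw i (b :: l) (List.nodup_cons.mp hn).2 hl' h
    · simp only [List.cons.injEq] at hr
      have := (pr_mem hl').1
      rw [hr.1] at this
      exact (List.nodup_cons.mp hn).1 this

theorem cr_sublist : ∀ (R u : List ℕ), valid u R → ∀ e ∈ cr u R, e.1 < e.2 ∧ [e.1, e.2] <+ u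
  | [], _, _, e, he => by simp at he
  | i :: R, u, hv, e, he => by
    rw [valid_cons] at hv
    have hlen := asc_lt_length hv.1
    rw [cr_cons] at he
    rcases List.mem_cons.mp he with rfl | he
    · exact ⟨(asc_iff_pr hlen).mp hv.1, pr_sublist hlen⟩
    · obtain ⟨h1, h2⟩ := cr_sublist R (sw i u) hv.2 e he
      refine ⟨h1, ?_⟩
      rcases sublist_sw i u e.1 e.2 h2 with h | ⟨h, _⟩
      · exact h
      · have h3 := (asc_iff_pr hlen).mp hv.1
        rw [← h] at h3
        simp at h3; omega

theorem cr_nodup : ∀ (R u : List ℕ), u.Nodup → valid u R → (cr u R).Nodup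
  | [], _, _, _ => by simp
  | i :: R, u, hn, hv => by
    rw [valid_cons] at hv
    have hlen := asc_lt_length hv.1
    rw [cr_cons, List.nodup_cons]
    refine ⟨?_, cr_nodup R (sw i u) (sw_nodup hn) hv.2⟩
    intro h
    exact not_sublist_sw i u hn hlen (cr_sublist R (sw i u) hv.2 _ h).2

/-! ### invariance under commutation -/

theorem step_inv {u R S : List ℕ} (hv : valid u R) (h : Step R S) :
    valid u S ∧ act u S = act u R ∧ (cr u S).Perm (cr u R) := by
  obtain ⟨A, B, i, j, hf, rfl, rfl⟩ := h
  simp only [List.append_assoc, valid_append, act_append, cr_append, List.cons_append,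
    List.nil_append, valid_cons, act_cons, cr_cons] at hv ⊢
  obtain ⟨h1, h2, h3, h4⟩ := hv
  set v := act u A with hvdef
  rw [asc_sw_far hf.symm] at h3
  rw [sw_comm hf.symm] at h4
  refine ⟨⟨h1, h3, ?_, h4⟩, ?_, ?_⟩
  · rw [asc_sw_far hf]; exact h2
  · rw [sw_comm hf]
  · rw [sw_comm hf, pr_sw_far hf, pr_sw_far hf.symm]
    exact List.Perm.append_left _ (List.Perm.swap _ _ _)

theorem comm_inv {u R S : List ℕ} (hv : valid u R) (h : Comm R S) :
    valid u S ∧ act u S = act u R ∧ (cr u S).Perm (cr u R) := by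
  induction h with
  | refl => exact ⟨hv, rfl, List.Perm.refl _⟩
  | tail _ h2 ih =>
    obtain ⟨a1, a2, a3⟩ := ih
    obtain ⟨b1, b2, b3⟩ := step_inv a1 h2
    exact ⟨b1, b2.trans a2, b3.trans a3⟩

/-- the labels at far apart positions are different -/
theorem pr_disjoint_aux : ∀ (i d : ℕ) (u : List ℕ), u.Nodup → i + 2 + d + 1 < u.length →
    ∀ z, (z = (pr i u).1 ∨ z = (pr i u).2) →
      ¬ (z = (pr (i + 2 + d) u).1 ∨ z = (pr (i + 2 + d) u).2)
  | _, _, [], _, h => by simp at h
  | _, _, [x], _, h => by simp at h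
  | 0, d, x :: y :: l, hn, hl => by
    intro z hz hz'
    simp only [show 0 + 2 + d = d + 1 + 1 by omega, pr_succ, pr_zero] at hz hz'
    have hl' : d + 1 < l.length := by simp at hl; omega
    have hm := pr_mem hl'
    have hz2 : z ∈ l := by
      rcases hz' with h | h
      · rw [h]; exact hm.1
      · rw [h]; exact hm.2
    simp at hn
    rcases hz with h | h
    · subst h; tauto
    · subst h; tauto
  | i + 1, d, x :: y :: l, hn, hl => by
    intro z hz hz'
    simp only [show i + 1 + 2 + d = (i + 2 + d) + 1 by omega, pr_succ] at hz hz'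
    have hl' : i + 2 + d + 1 < (y :: l).length := by simp at hl ⊢; omega
    exact pr_disjoint_aux i d (y :: l) (List.nodup_cons.mp hn).2 hl' z hz hz'

theorem pr_disjoint {i j : ℕ} (h : Far i j) {u : List ℕ} (hn : u.Nodup) (hi : i + 1 < u.length)
    (hj : j + 1 < u.length) (z : ℕ) (hz : z = (pr i u).1 ∨ z = (pr i u).2) :
    ¬ (z = (pr j u).1 ∨ z = (pr j u).2) := by
  rcases h with h | h
  · obtain ⟨d, rfl⟩ : ∃ d, j = i + 2 + d := ⟨j - i - 2, by omega⟩
    exact pr_disjoint_aux i d u hn (by omega) z hz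
  · obtain ⟨d, rfl⟩ : ∃ d, i = j + 2 + d := ⟨i - j - 2, by omega⟩
    intro hz'
    exact pr_disjoint_aux j d u hn (by omega) z hz' hz

/-- the crossings involving the label `z`, in their order -/
def zs (z : ℕ) (l : List (ℕ × ℕ)) : List (ℕ × ℕ) := l.filter (fun e => z = e.1 ∨ z = e.2)

theorem step_zs {u R S : List ℕ} (hn : u.Nodup) (hv : valid u R) (h : Step R S) (z : ℕ) :
    zs z (cr u S) = zs z (cr u R) := by
  obtain ⟨A, B, i, j, hf, rfl, rfl⟩ := h
  simp only [List.append_assoc, valid_append, cr_append, List.cons_append,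
    List.nil_append, valid_cons, cr_cons] at hv ⊢
  obtain ⟨h1, h2, h3, h4⟩ := hv
  set v := act u A with hvdef
  rw [asc_sw_far hf.symm] at h3
  rw [sw_comm hf, pr_sw_far hf, pr_sw_far hf.symm]
  have hvn : v.Nodup := (act_perm A u).nodup_iff.mpr hn
  have hd := pr_disjoint hf hvn (asc_lt_length h2) (asc_lt_length h3) z
  unfold zs
  rw [List.filter_append, List.filter_append]
  congr 1
  by_cases hz : z = (pr i v).1 ∨ z = (pr i v).2
  · have := hd hz
    simp [List.filter_cons, hz, this]
  · simp [List.filter_cons, hz]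

theorem comm_zs {u R S : List ℕ} (hn : u.Nodup) (hv : valid u R) (h : Comm R S) (z : ℕ) :
    zs z (cr u S) = zs z (cr u R) := by
  induction h with
  | refl => rfl
  | tail h1 h2 ih => rw [step_zs hn (comm_inv hv h1).1 h2, ih]

/-! ### cancellation -/

theorem cancel : ∀ (L1 u U1 L2 U2 : List ℕ), u.Nodup → valid u (L1 ++ U1) →
    Comm (L1 ++ U1) (L2 ++ U2) → (∀ e ∈ cr u L1, e ∈ cr u L2) →
    ∃ X, Comm L2 (L1 ++ X) ∧ Comm U1 (X ++ U2)
  | [], u, U1, L2, U2, _, _, hc, _ => ⟨L2, by simpa using Comm.refl L2, by simpa using hc⟩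
  | i :: L1, u, U1, L2, U2, hn, hv, hc, hsub => by
    obtain ⟨hv2, _, _⟩ := comm_inv hv hc
    simp only [List.cons_append] at hc
    obtain ⟨A, B, hAB, hA, hW⟩ := extract_of_comm hc
    have hcomm2 : Comm (L2 ++ U2) (i :: (A ++ B)) := by rw [hAB]; exact comm_bubble' i A B hA
    obtain ⟨hv3, _, hp3⟩ := comm_inv hv2 hcomm2
    have hnd : (cr u (A ++ i :: B)).Nodup := cr_nodup _ u hn (hAB ▸ hv2)
    rw [cr_append, cr_cons, pr_act_far A u i hA] at hnd
    have hnA : pr i u ∉ cr u A := by
      intro h
      exact (List.nodup_append.mp hnd).2.2 _ h _ List.mem_cons_self rfl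
    have he : pr i u ∈ cr u L2 := hsub _ (by simp)
    -- `L2` contains the first `i`
    obtain ⟨c', hL2, hB⟩ : ∃ c', L2 = A ++ i :: c' ∧ B = c' ++ U2 := by
      rcases List.append_eq_append_iff.mp hAB with ⟨a', h1, h2⟩ | ⟨c', h1, h2⟩
      · exfalso
        apply hnA
        rw [h1, cr_append]
        exact List.mem_append_left _ he
      · cases c' with
        | nil =>
          exfalso
          apply hnA
          simp at h1
          rw [← h1]; exact he
        | cons x c' =>
          simp only [List.cons_append, List.cons.injEq] at h2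
          obtain ⟨rfl, h2⟩ := h2
          exact ⟨c', h1, h2⟩
    have hL2c : Comm L2 (i :: (A ++ c')) := by rw [hL2]; exact comm_bubble' i A c' hA
    have hvL2 : valid u L2 := ((valid_append _ _ _).mp hv2).1
    obtain ⟨_, _, hpL2⟩ := comm_inv hvL2 hL2c
    simp only [List.cons_append, valid_cons] at hv
    have hn' := sw_nodup (i := i) hn
    have key : ∀ e ∈ cr (sw i u) L1, e ∈ cr (sw i u) (A ++ c') := by
      intro e he1
      have h1 : e ∈ cr u L2 := hsub e (by simp [he1])
      have h2 : e ∈ cr u (i :: (A ++ c')) := hpL2.mem_iff.mpr h1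
      rw [cr_cons] at h2
      rcases List.mem_cons.mp h2 with h | h
      · exfalso
        have h5 : (cr u (i :: L1)).Nodup := by
          apply cr_nodup _ u hn
          rw [valid_cons]
          exact ⟨hv.1, ((valid_append _ _ _).mp hv.2).1⟩
        rw [cr_cons, List.nodup_cons, ← h] at h5
        exact h5.1 he1
      · exact h
    have hW' : Comm (L1 ++ U1) ((A ++ c') ++ U2) := by
      rw [hB] at hW
      simpa using hW
    obtain ⟨X, hX1, hX2⟩ := cancel L1 (sw i u) U1 (A ++ c') U2 hn' hv.2 hW' key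
    refine ⟨X, ?_, hX2⟩
    exact hL2c.trans (by simpa using hX1.cons i)

end Pool.Agent.BSq
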