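import Pool.Agent.Lib.MP_4f027a_co.Arr

/-!
# Deleting the largest or the smallest label
-/

namespace Pool.Agent.BSq

open List

theorem ins_length : ∀ (p x : ℕ) (v : List ℕ), (ins p x v).length = v.length + 1
  | 0, x, v => by simp
  | p + 1, x, [] => by simp
  | p + 1, x, y :: v => by simp [ins_length p x v]

theorem ins_perm : ∀ (p x : ℕ) (v : List ℕ), (ins p x v).Perm (x :: v)
  | 0, x, v => by simp
  | p + 1, x, [] => by simp
  | p + 1, x, y :: v => by
    rw [ins_succ]
    exact ((ins_perm p x v).cons y).trans (List.Perm.swap x y v)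

theorem ins_nodup {p x : ℕ} {v : List ℕ} : (ins p x v).Nodup ↔ x ∉ v ∧ v.Nodup := by
  rw [(ins_perm p x v).nodup_iff, List.nodup_cons]

theorem sw_ins_lt : ∀ (i p x : ℕ) (v : List ℕ), i + 1 < p → p ≤ v.length →
    sw i (ins p x v) = ins p x (sw i v)
  | _, 0, _, _, h, _ => by omega
  | _, _ + 1, _, [], _, h => by simp at h
  | _, p + 1, _, [y], h, h' => by simp at h'; omega
  | 0, p + 1, x, y :: w :: v, h, h' => by
    obtain ⟨q, rfl⟩ : ∃ q, p = q + 1 := ⟨p - 1, by omega⟩
    simp
  | i + 1, p + 1, x, y :: w :: v, h, h' => by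
    have := sw_ins_lt i p x (w :: v) (by omega) (by simp at h' ⊢; omega)
    simp only [ins_succ, sw_succ, this]

theorem sw_ins_at : ∀ (i x : ℕ) (v : List ℕ), i < v.length → sw i (ins (i + 1) x v) = ins i x v
  | _, _, [], h => by simp at h
  | 0, x, y :: v, _ => by simp
  | i + 1, x, y :: v, h => by
    have := sw_ins_at i x v (by simp at h; omega)
    simp only [ins_succ, sw_succ, this]

theorem sw_ins_at' (i x : ℕ) (v : List ℕ) (h : i < v.length) :
    sw i (ins i x v) = ins (i + 1) x v := by
  rw [← sw_ins_at i x v h, sw_sw]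

theorem sw_ins_gt : ∀ (p j x : ℕ) (v : List ℕ), p ≤ j → sw (j + 1) (ins p x v) = ins p x (sw j v)
  | 0, j, x, v, _ => by simp
  | p + 1, j, x, [], _ => by simp
  | p + 1, 0, x, _ :: _, h => by omega
  | p + 1, j + 1, x, y :: v, h => by
    have := sw_ins_gt p j x v (by omega)
    simp only [ins_succ, sw_succ, this]

theorem asc_ins_lt : ∀ (i p x : ℕ) (v : List ℕ), i + 1 < p → p ≤ v.length →
    (asc i (ins p x v) ↔ asc i v)
  | _, 0, _, _, h, _ => by omega
  | _, _ + 1, _, [], _, h => by simp at h
  | _, p + 1, _, [y], h, h' => by simp at h'; omega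
  | 0, p + 1, x, y :: w :: v, h, h' => by
    obtain ⟨q, rfl⟩ : ∃ q, p = q + 1 := ⟨p - 1, by omega⟩
    simp
  | i + 1, p + 1, x, y :: w :: v, h, h' => by
    have := asc_ins_lt i p x (w :: v) (by omega) (by simp at h' ⊢; omega)
    simp only [ins_succ, asc_succ, this]

theorem des_ins_lt (i p x : ℕ) (v : List ℕ) (h : i + 1 < p) (h' : p ≤ v.length) :
    (des i (ins p x v) ↔ des i v) := by
  rw [← asc_sw_iff_des, ← asc_sw_iff_des, sw_ins_lt i p x v h h',
    asc_ins_lt i p x _ h (by rw [sw_length]; exact h')]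

theorem pr_ins_lt : ∀ (i p x : ℕ) (v : List ℕ), i + 1 < p → p ≤ v.length →
    pr i (ins p x v) = pr i v
  | _, 0, _, _, h, _ => by omega
  | _, _ + 1, _, [], _, h => by simp at h
  | _, p + 1, _, [y], h, h' => by simp at h'; omega
  | 0, p + 1, x, y :: w :: v, h, h' => by
    obtain ⟨q, rfl⟩ : ∃ q, p = q + 1 := ⟨p - 1, by omega⟩
    simp
  | i + 1, p + 1, x, y :: w :: v, h, h' => by
    have := pr_ins_lt i p x (w :: v) (by omega) (by simp at h' ⊢; omega)
    simp only [ins_succ, pr_succ, this]

theorem asc_ins_gt : ∀ (p j x : ℕ) (v : List ℕ), p ≤ j → (asc (j + 1) (ins p x v) ↔ asc j v)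
  | 0, j, x, v, _ => by simp
  | p + 1, j, x, [], _ => by simp
  | p + 1, 0, x, _ :: _, h => by omega
  | p + 1, j + 1, x, y :: v, h => by
    have := asc_ins_gt p j x v (by omega)
    simp only [ins_succ, asc_succ, this]

theorem des_ins_gt (p j x : ℕ) (v : List ℕ) (h : p ≤ j) :
    (des (j + 1) (ins p x v) ↔ des j v) := by
  rw [← asc_sw_iff_des, ← asc_sw_iff_des, sw_ins_gt p j x v h, asc_ins_gt p j x _ h]

theorem pr_ins_gt : ∀ (p j x : ℕ) (v : List ℕ), p ≤ j → j < v.length →
    pr (j + 1) (ins p x v) = pr j v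
  | 0, j, x, v, _, _ => by simp
  | p + 1, j, x, [], _, h => by simp at h
  | p + 1, 0, x, _ :: _, h, _ => by omega
  | p + 1, j + 1, x, y :: v, h, h' => by
    have := pr_ins_gt p j x v (by omega) (by simp at h'; omega)
    simp only [ins_succ, pr_succ, this]

theorem pr_ins_at : ∀ (i x : ℕ) (v : List ℕ), i < v.length →
    (pr i (ins (i + 1) x v)).2 = x ∧ (pr i (ins (i + 1) x v)).1 ∈ v
  | _, _, [], h => by simp at h
  | 0, x, y :: v, _ => by simp
  | i + 1, x, y :: v, h => by
    have := pr_ins_at i x v (by simp at h; omega)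
    simp only [ins_succ, pr_succ]
    exact ⟨this.1, List.mem_cons_of_mem _ this.2⟩

theorem pr_ins_at' (i x : ℕ) (v : List ℕ) (h : i < v.length) :
    (pr i (ins i x v)).1 = x ∧ (pr i (ins i x v)).2 ∈ v := by
  have h1 := pr_ins_at i x v h
  have h2 : pr i (sw i (ins (i + 1) x v)) = _ := pr_sw (by rw [ins_length]; omega)
  rw [sw_ins_at i x v h] at h2
  rw [h2]
  exact h1

theorem asc_ins_at {i N : ℕ} {v : List ℕ} (h : i < v.length) (hN : ∀ y ∈ v, y < N) :
    asc i (ins (i + 1) N v) := by
  rw [asc_iff_pr (by rw [ins_length]; omega)]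
  obtain ⟨h1, h2⟩ := pr_ins_at i N v h
  rw [h1]; exact hN _ h2

theorem des_ins_at {i N : ℕ} {v : List ℕ} (h : i < v.length) (hN : ∀ y ∈ v, y < N) :
    des i (ins i N v) := by
  rw [← asc_sw_iff_des, sw_ins_at' i N v h]
  exact asc_ins_at h hN

theorem asc_ins_at_min {i z : ℕ} {v : List ℕ} (h : i < v.length) (hz : ∀ y ∈ v, z < y) :
    asc i (ins i z v) := by
  rw [asc_iff_pr (by rw [ins_length]; omega)]
  obtain ⟨h1, h2⟩ := pr_ins_at' i z v h
  rw [h1]; exact hz _ h2

theorem des_ins_at_min {i z : ℕ} {v : List ℕ} (h : i < v.length) (hz : ∀ y ∈ v, z < y) :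
    des i (ins (i + 1) z v) := by
  rw [← asc_sw_iff_des, sw_ins_at i z v h]
  exact asc_ins_at_min h hz

theorem not_asc_ins_max {i N : ℕ} {v : List ℕ} (hN : ∀ y ∈ v, y < N) :
    ¬ asc i (ins i N v) := by
  intro h
  have hl := asc_lt_length h
  rw [ins_length] at hl
  exact asc_not_des h (des_ins_at (by omega) hN)

theorem not_asc_ins_min {i z : ℕ} {v : List ℕ} (hz : ∀ y ∈ v, z < y) :
    ¬ asc i (ins (i + 1) z v) := by
  intro h
  have hl := asc_lt_length h
  rw [ins_length] at hl
  exact asc_not_des h (des_ins_at_min (by omega) hz)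

theorem ins_inj : ∀ (p q x : ℕ) (v w : List ℕ), x ∉ v → x ∉ w → p ≤ v.length → q ≤ w.length →
    ins p x v = ins q x w → p = q ∧ v = w
  | 0, 0, x, v, w, _, _, _, _, h => by simpa using h
  | 0, q + 1, x, v, [], _, _, _, h, _ => by simp at h
  | 0, q + 1, x, v, y :: w, _, h2, _, _, h => by
    simp only [ins_zero, ins_succ, List.cons.injEq] at h
    simp [h.1] at h2
  | p + 1, 0, x, [], w, _, _, h, _, _ => by simp at h
  | p + 1, 0, x, y :: v, w, h1, _, _, _, h => by
    simp only [ins_zero, ins_succ, List.cons.injEq] at h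
    simp [h.1] at h1
  | p + 1, q + 1, x, [], w, _, _, h, _, _ => by simp at h
  | p + 1, q + 1, x, y :: v, [], _, _, _, h, _ => by simp at h
  | p + 1, q + 1, x, y :: v, y' :: w, h1, h2, h3, h4, h => by
    simp only [ins_succ, List.cons.injEq] at h
    have := ins_inj p q x v w (fun e => h1 (List.mem_cons_of_mem _ e))
      (fun e => h2 (List.mem_cons_of_mem _ e)) (by simpa using h3) (by simpa using h4) h.2
    exact ⟨by omega, by rw [h.1, this.2]⟩

/-! ### words with the largest label deleted -/

/-- the word with the largest label (at position `p`) deleted -/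
def dMax : ℕ → List ℕ → List ℕ
  | _, [] => []
  | p, i :: R => if i + 1 = p then dMax i R else if i + 1 < p then i :: dMax p R
      else (i - 1) :: dMax p R

/-- final position of the largest label -/
def fMax : ℕ → List ℕ → ℕ
  | p, [] => p
  | p, i :: R => if i + 1 = p then fMax i R else fMax p R

/-- crossings below the largest label -/
def Lw : ℕ → List ℕ → List ℕ
  | _, [] => []
  | p, i :: R => if i + 1 = p then Lw i R else if i + 1 < p then i :: Lw p R else Lw p R

/-- crossings above the largest label -/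
def Uw : ℕ → List ℕ → List ℕ
  | _, [] => []
  | p, i :: R => if i + 1 = p then Uw i R else if i + 1 < p then Uw p R else (i - 1) :: Uw p R

/-- crossings of the largest label -/
def Dw : ℕ → List ℕ → List ℕ
  | _, [] => []
  | p, i :: R => if i + 1 = p then i :: Dw i R else Dw p R

/-- the word with the smallest label (at position `p`) deleted -/
def dMin : ℕ → List ℕ → List ℕ
  | _, [] => []
  | p, i :: R => if i = p then dMin (i + 1) R else if i < p then i :: dMin p R
      else (i - 1) :: dMin p R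

/-- final position of the smallest label -/
def fMin : ℕ → List ℕ → ℕ
  | p, [] => p
  | p, i :: R => if i = p then fMin (i + 1) R else fMin p R

/-- no letter moves the largest label up -/
def okN : ℕ → List ℕ → Prop
  | _, [] => True
  | p, i :: R => i ≠ p ∧ okN (if i + 1 = p then i else p) R

/-- no letter moves the smallest label down -/
def okZ : ℕ → List ℕ → Prop
  | _, [] => True
  | p, i :: R => i + 1 ≠ p ∧ okZ (if i = p then i + 1 else p) R

theorem max_step {p N i : ℕ} {v : List ℕ} (hp : p ≤ v.length) (hN : ∀ y ∈ v, y < N)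
    (h : asc i (ins p N v)) :
    (i + 1 = p ∧ i < v.length ∧ sw i (ins p N v) = ins i N v) ∨
    (i + 1 < p ∧ asc i v ∧ sw i (ins p N v) = ins p N (sw i v) ∧ pr i (ins p N v) = pr i v) ∨
    (p < i ∧ asc (i - 1) v ∧ sw i (ins p N v) = ins p N (sw (i - 1) v) ∧
      pr i (ins p N v) = pr (i - 1) v) := by
  rcases lt_trichotomy (i + 1) p with h1 | h1 | h1
  · right; left
    exact ⟨h1, (asc_ins_lt i p N v h1 hp).mp h, sw_ins_lt i p N v h1 hp, pr_ins_lt i p N v h1 hp⟩
  · left
    subst h1
    exact ⟨rfl, by omega, sw_ins_at i N v (by omega)⟩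
  · right; right
    rcases Nat.eq_or_lt_of_le (show p ≤ i by omega) with h2 | h2
    · subst h2
      exact absurd h (not_asc_ins_max hN)
    · obtain ⟨j, rfl⟩ : ∃ j, i = j + 1 := ⟨i - 1, by omega⟩
      have h3 := (asc_ins_gt p j N v (by omega)).mp h
      exact ⟨h2, h3, sw_ins_gt p j N v (by omega),
        pr_ins_gt p j N v (by omega) (by have := asc_lt_length h3; omega)⟩

theorem min_step {p z i : ℕ} {v : List ℕ} (hp : p ≤ v.length) (hz : ∀ y ∈ v, z < y)
    (h : asc i (ins p z v)) :
    (i = p ∧ i < v.length ∧ sw i (ins p z v) = ins (i + 1) z v) ∨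
    (i + 1 < p ∧ asc i v ∧ sw i (ins p z v) = ins p z (sw i v) ∧ pr i (ins p z v) = pr i v) ∨
    (p < i ∧ asc (i - 1) v ∧ sw i (ins p z v) = ins p z (sw (i - 1) v) ∧
      pr i (ins p z v) = pr (i - 1) v) := by
  rcases lt_trichotomy i p with h1 | h1 | h1
  · right; left
    rcases Nat.eq_or_lt_of_le (show i + 1 ≤ p by omega) with h2 | h2
    · subst h2
      exact absurd h (not_asc_ins_min hz)
    · exact ⟨h2, (asc_ins_lt i p z v h2 hp).mp h, sw_ins_lt i p z v h2 hp,
        pr_ins_lt i p z v h2 hp⟩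
  · left
    subst h1
    have hl := asc_lt_length h
    rw [ins_length] at hl
    exact ⟨rfl, by omega, sw_ins_at' i z v (by omega)⟩
  · right; right
    obtain ⟨j, rfl⟩ : ∃ j, i = j + 1 := ⟨i - 1, by omega⟩
    have h3 := (asc_ins_gt p j z v (by omega)).mp h
    exact ⟨h1, h3, sw_ins_gt p j z v (by omega),
      pr_ins_gt p j z v (by omega) (by have := asc_lt_length h3; omega)⟩

theorem max_del : ∀ (R : List ℕ) (p N : ℕ) (v : List ℕ), p ≤ v.length → (∀ y ∈ v, y < N) →
    valid (ins p N v) R →
    valid v (dMax p R) ∧ act (ins p N v) R = ins (fMax p R) N (act v (dMax p R)) ∧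
      fMax p R ≤ v.length ∧ okN p R
  | [], p, N, v, hp, _, _ => by simp [dMax, fMax, hp, okN]
  | i :: R, p, N, v, hp, hN, hv => by
    rw [valid_cons] at hv
    rcases max_step hp hN hv.1 with ⟨h1, h2, h3⟩ | ⟨h1, h2, h3, _⟩ | ⟨h1, h2, h3, _⟩
    · obtain ⟨a1, a2, a3, a4⟩ := max_del R i N v (by omega) hN (h3 ▸ hv.2)
      rw [act_cons, h3]
      simp only [dMax, fMax, okN, h1, if_true]
      exact ⟨a1, a2, a3, by omega, a4⟩
    · have hN' : ∀ y ∈ sw i v, y < N := fun y hy => hN y ((sw_perm i v).subset hy)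
      obtain ⟨a1, a2, a3, a4⟩ := max_del R p N (sw i v) (by rw [sw_length]; exact hp) hN'
        (h3 ▸ hv.2)
      rw [act_cons, h3]
      have hne : ¬ i + 1 = p := by omega
      simp only [dMax, fMax, okN, hne, h1, if_false, if_true]
      rw [sw_length] at a3
      exact ⟨⟨h2, a1⟩, a2, a3, by omega, a4⟩
    · have hN' : ∀ y ∈ sw (i - 1) v, y < N := fun y hy => hN y ((sw_perm (i - 1) v).subset hy)
      obtain ⟨a1, a2, a3, a4⟩ := max_del R p N (sw (i - 1) v) (by rw [sw_length]; exact hp) hN'
        (h3 ▸ hv.2)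
      rw [act_cons, h3]
      have hne : ¬ i + 1 = p := by omega
      have hne' : ¬ i + 1 < p := by omega
      simp only [dMax, fMax, okN, hne, hne', if_false]
      rw [sw_length] at a3
      exact ⟨⟨h2, a1⟩, a2, a3, by omega, a4⟩

theorem min_del : ∀ (R : List ℕ) (p z : ℕ) (v : List ℕ), p ≤ v.length → (∀ y ∈ v, z < y) →
    valid (ins p z v) R →
    valid v (dMin p R) ∧ act (ins p z v) R = ins (fMin p R) z (act v (dMin p R)) ∧
      fMin p R ≤ v.length ∧ okZ p R ∧
      (cr (ins p z v) R).filter (fun e => ¬ (z = e.1 ∨ z = e.2)) = cr v (dMin p R)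
  | [], p, N, v, hp, _, _ => by simp [dMin, fMin, hp, okZ]
  | i :: R, p, z, v, hp, hz, hv => by
    rw [valid_cons] at hv
    rcases min_step hp hz hv.1 with ⟨h1, h2, h3⟩ | ⟨h1, h2, h3, h4⟩ | ⟨h1, h2, h3, h4⟩
    · obtain ⟨a1, a2, a3, a4, a5⟩ := min_del R (i + 1) z v (by omega) hz (h3 ▸ hv.2)
      rw [act_cons, cr_cons, h3]
      simp only [dMin, fMin, okZ, h1, if_true]
      rw [h1] at a1 a2 a3 a4 a5
      refine ⟨a1, a2, a3, ⟨by omega, a4⟩, ?_⟩
      rw [← a5]
      have := (pr_ins_at' p z v (by omega)).1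
      rw [List.filter_cons]
      simp [this]
    · have hz' : ∀ y ∈ sw i v, z < y := fun y hy => hz y ((sw_perm i v).subset hy)
      obtain ⟨a1, a2, a3, a4, a5⟩ := min_del R p z (sw i v) (by rw [sw_length]; exact hp) hz'
        (h3 ▸ hv.2)
      rw [act_cons, cr_cons, h3]
      have hne : ¬ i = p := by omega
      have hlt : i < p := by omega
      simp only [dMin, fMin, okZ, hne, hlt, if_false, if_true]
      rw [sw_length] at a3
      refine ⟨⟨h2, a1⟩, a2, a3, ⟨by omega, a4⟩, ?_⟩
      rw [cr_cons, ← a5, h4]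
      have hm := pr_mem (asc_lt_length h2)
      have e1 := hz _ hm.1
      have e2 := hz _ hm.2
      rw [List.filter_cons]
      simp [show ¬ (z = (pr i v).1) by omega, show ¬ (z = (pr i v).2) by omega]
    · have hz' : ∀ y ∈ sw (i - 1) v, z < y := fun y hy => hz y ((sw_perm (i - 1) v).subset hy)
      obtain ⟨a1, a2, a3, a4, a5⟩ := min_del R p z (sw (i - 1) v) (by rw [sw_length]; exact hp)
        hz' (h3 ▸ hv.2)
      rw [act_cons, cr_cons, h3]
      have hne : ¬ i = p := by omega
      have hlt : ¬ i < p := by omega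
      simp only [dMin, fMin, okZ, hne, hlt, if_false]
      rw [sw_length] at a3
      refine ⟨⟨h2, a1⟩, a2, a3, ⟨by omega, a4⟩, ?_⟩
      rw [cr_cons, ← a5, h4]
      have hm := pr_mem (asc_lt_length h2)
      have e1 := hz _ hm.1
      have e2 := hz _ hm.2
      rw [List.filter_cons]
      simp [show ¬ (z = (pr (i - 1) v).1) by omega, show ¬ (z = (pr (i - 1) v).2) by omega]

/-! ### the decomposition along the largest label -/

theorem Lw_lt : ∀ (R : List ℕ) (p : ℕ), ∀ x ∈ Lw p R, x + 1 < p
  | [], _, x, hx => by simp [Lw] at hx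
  | i :: R, p, x, hx => by
    unfold Lw at hx
    split_ifs at hx with h1 h2
    · have := Lw_lt R i x hx; omega
    · rcases List.mem_cons.mp hx with rfl | hx
      · exact h2
      · exact Lw_lt R p x hx
    · exact Lw_lt R p x hx

theorem Dw_lt : ∀ (R : List ℕ) (p : ℕ), ∀ x ∈ Dw p R, x < p
  | [], _, x, hx => by simp [Dw] at hx
  | i :: R, p, x, hx => by
    unfold Dw at hx
    split_ifs at hx with h1
    · rcases List.mem_cons.mp hx with rfl | hx
      · omega
      · have := Dw_lt R i x hx; omega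
    · exact Dw_lt R p x hx

theorem comm_dMax : ∀ (R : List ℕ) (p : ℕ), okN p R → Comm (dMax p R) (Lw p R ++ Uw p R)
  | [], _, _ => Comm.refl _
  | i :: R, p, h => by
    unfold okN at h
    by_cases h1 : i + 1 = p
    · rw [if_pos h1] at h
      have := comm_dMax R i h.2
      simpa [dMax, Lw, Uw, h1] using this
    · rw [if_neg h1] at h
      have ih := comm_dMax R p h.2
      by_cases h2 : i + 1 < p
      · have := ih.cons i
        simpa [dMax, Lw, Uw, h1, h2] using this
      · have h3 := ih.cons (i - 1)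
        have h4 : Comm (Lw p R ++ (i - 1) :: Uw p R) ((i - 1) :: (Lw p R ++ Uw p R)) := by
          apply comm_bubble'
          intro x hx
          have := Lw_lt R p x hx
          right; omega
        simpa [dMax, Lw, Uw, h1, h2] using h3.trans h4.symm

theorem comm_LDU : ∀ (R : List ℕ) (p : ℕ), okN p R →
    Comm R (Lw p R ++ (Dw p R ++ (Uw p R).map (· + 1)))
  | [], _, _ => by simpa [Lw, Uw, Dw] using Comm.refl _
  | i :: R, p, h => by
    unfold okN at h
    by_cases h1 : i + 1 = p
    · rw [if_pos h1] at h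
      have ih := (comm_LDU R i h.2).cons i
      have h4 := comm_bubble' i (Lw i R) (Dw i R ++ (Uw i R).map (· + 1)) (by
        intro x hx
        have := Lw_lt R i x hx
        right; omega)
      simpa [Dw, Lw, Uw, h1] using ih.trans h4.symm
    · rw [if_neg h1] at h
      have ih := (comm_LDU R p h.2).cons i
      by_cases h2 : i + 1 < p
      · simpa [Dw, Lw, Uw, h1, h2] using ih
      · have hip : p < i := by omega
        have h4 := comm_bubble' i (Lw p R ++ Dw p R) ((Uw p R).map (· + 1)) (by
          intro x hx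
          rcases List.mem_append.mp hx with hx | hx
          · have := Lw_lt R p x hx
            right; omega
          · have := Dw_lt R p x hx
            right; omega)
        have h5 : i - 1 + 1 = i := by omega
        simpa [Dw, Lw, Uw, h1, h2, h5] using ih.trans (by simpa using h4.symm)

/-- `m+k-1, ..., m+1, m` -/
def dn (m : ℕ) : ℕ → List ℕ
  | 0 => []
  | k + 1 => (m + k) :: dn m k

theorem fMax_le : ∀ (R : List ℕ) (p : ℕ), fMax p R ≤ p
  | [], p => le_refl _
  | i :: R, p => by
    unfold fMax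
    split_ifs with h
    · have := fMax_le R i; omega
    · exact fMax_le R p

theorem Dw_eq : ∀ (R : List ℕ) (p : ℕ), Dw p R = dn (fMax p R) (p - fMax p R)
  | [], p => by simp [Dw, fMax, dn]
  | i :: R, p => by
    unfold Dw fMax
    split_ifs with h
    · have h1 := fMax_le R i
      rw [Dw_eq R i]
      obtain ⟨k, hk⟩ : ∃ k, i = fMax i R + k := ⟨i - fMax i R, by omega⟩
      have e1 : i - fMax i R = k := by omega
      have e2 : p - fMax i R = k + 1 := by omega
      rw [e1, e2]
      show i :: dn (fMax i R) k = (fMax i R + k) :: dn (fMax i R) k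
      rw [← hk]
    · exact Dw_eq R p

theorem Lw_cons (p i : ℕ) (R : List ℕ) : Lw p (i :: R) =
    if i + 1 = p then Lw i R else if i + 1 < p then i :: Lw p R else Lw p R := rfl

theorem Uw_cons (p i : ℕ) (R : List ℕ) : Uw p (i :: R) =
    if i + 1 = p then Uw i R else if i + 1 < p then Uw p R else (i - 1) :: Uw p R := rfl

theorem fMax_cons (p i : ℕ) (R : List ℕ) : fMax p (i :: R) =
    if i + 1 = p then fMax i R else fMax p R := rfl

theorem dMin_cons (p i : ℕ) (R : List ℕ) : dMin p (i :: R) =
    if i = p then dMin (i + 1) R else if i < p then i :: dMin p R else (i - 1) :: dMin p R := rfl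

theorem Lw_append : ∀ (A B : List ℕ) (p : ℕ), Lw p (A ++ B) = Lw p A ++ Lw (fMax p A) B
  | [], _, _ => rfl
  | i :: A, B, p => by
    rw [List.cons_append, Lw_cons, Lw_cons, fMax_cons]
    split_ifs <;> simp [Lw_append A B]

theorem step_Lw {R S : List ℕ} (h : Step R S) (p : ℕ) : Comm (Lw p R) (Lw p S) := by
  obtain ⟨A, B, i, j, hf, rfl, rfl⟩ := h
  simp only [List.append_assoc, Lw_append]
  apply Comm.left
  rw [← Lw_append, ← Lw_append]
  generalize fMax p A = q
  unfold Far at hf
  simp only [List.cons_append, List.nil_append]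
  by_cases hi : i + 1 = q
  · have hj : ¬ j + 1 = q := by omega
    have hj' : ¬ j + 1 = i := by omega
    by_cases hj2 : j + 1 < q
    · have hj3 : j + 1 < i := by omega
      simp only [Lw_cons, hi, hj, hj2, hj', hj3, if_true, if_false]
      exact Comm.refl _
    · have hj3 : ¬ j + 1 < i := by omega
      simp only [Lw_cons, hi, hj, hj2, hj', hj3, if_true, if_false]
      exact Comm.refl _
  · by_cases hj : j + 1 = q
    · have hi' : ¬ i + 1 = j := by omega
      by_cases hi2 : i + 1 < q
      · have hi3 : i + 1 < j := by omega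
        simp only [Lw_cons, hi, hj, hi2, hi', hi3, if_true, if_false]
        exact Comm.refl _
      · have hi3 : ¬ i + 1 < j := by omega
        simp only [Lw_cons, hi, hj, hi2, hi', hi3, if_true, if_false]
        exact Comm.refl _
    · by_cases hi2 : i + 1 < q
      · by_cases hj2 : j + 1 < q
        · simp only [Lw_cons, hi, hj, hi2, hj2, if_false, if_true]
          exact Relation.ReflTransGen.single ⟨[], Lw q B, i, j, hf, by simp, by simp⟩
        · simp only [Lw_cons, hi, hj, hi2, hj2, if_false, if_true]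
          exact Comm.refl _
      · by_cases hj2 : j + 1 < q
        · simp only [Lw_cons, hi, hj, hi2, hj2, if_false, if_true]
          exact Comm.refl _
        · simp only [Lw_cons, hi, hj, hi2, hj2, if_false]
          exact Comm.refl _

theorem comm_Lw {R S : List ℕ} (h : Comm R S) (p : ℕ) : Comm (Lw p R) (Lw p S) := by
  induction h with
  | refl => exact Comm.refl _
  | tail _ h2 ih => exact ih.trans (step_Lw h2 p)

theorem dMin_of_lt : ∀ (X : List ℕ) (q : ℕ), (∀ x ∈ X, x < q) → dMin q X = X
  | [], _, _ => rfl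
  | i :: X, q, h => by
    have h1 := h i List.mem_cons_self
    have h2 : ¬ i = q := by omega
    rw [dMin_cons, if_neg h2, if_pos h1, dMin_of_lt X q (fun x hx => h x (List.mem_cons_of_mem _ hx))]

theorem Lw_dMin2 : ∀ (R : List ℕ) (pz pN : ℕ), pN < pz → Lw pN (dMin pz R) = Lw pN R
  | [], pz, pN, _ => by simp [Lw, dMin]
  | i :: R, pz, pN, hlt => by
    by_cases h1 : i = pz
    · subst h1
      have h2 : ¬ i + 1 = pN := by omega
      have h3 : ¬ i + 1 < pN := by omega
      rw [dMin_cons, Lw_cons, if_pos rfl, if_neg h2, if_neg h3]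
      exact Lw_dMin2 R (i + 1) pN (by omega)
    · by_cases h2 : i + 1 = pN
      · have h3 : i < pz := by omega
        rw [dMin_cons, if_neg h1, if_pos h3, Lw_cons, Lw_cons, if_pos h2, if_pos h2]
        exact Lw_dMin2 R pz i h3
      · by_cases h3 : i < pz
        · rw [dMin_cons, if_neg h1, if_pos h3, Lw_cons, Lw_cons, if_neg h2, if_neg h2]
          rw [Lw_dMin2 R pz pN hlt]
        · have h4 : ¬ i - 1 + 1 = pN := by omega
          have h5 : ¬ i - 1 + 1 < pN := by omega
          have h6 : ¬ i + 1 < pN := by omega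
          rw [dMin_cons, if_neg h1, if_neg h3, Lw_cons, Lw_cons, if_neg h2, if_neg h4, if_neg h5,
            if_neg h6]
          exact Lw_dMin2 R pz pN hlt

theorem Lw_dMin : ∀ (R : List ℕ) (pz pN : ℕ), okN pN R → okZ pz R →
    pz < pN → Lw (pN - 1) (dMin pz R) = dMin pz (Lw pN R)
  | [], pz, pN, _, _ => by simp [Lw, dMin]
  | i :: R, pz, pN, hN, hZ => by
    unfold okN at hN
    unfold okZ at hZ
    intro hlt
    by_cases h1 : i = pz
    · subst h1
      rw [if_pos rfl] at hZ
      by_cases h2 : i + 1 = pN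
      · rw [dMin_cons, if_pos rfl, Lw_cons, if_pos h2]
        rw [dMin_of_lt (Lw i R) i (fun x hx => by have := Lw_lt R i x hx; omega)]
        rw [show pN - 1 = i by omega]
        exact Lw_dMin2 R (i + 1) i (by omega)
      · rw [if_neg h2] at hN
        have ih := Lw_dMin R (i + 1) pN hN.2 hZ.2 (by omega)
        have h3 : i + 1 < pN := by omega
        rw [dMin_cons, if_pos rfl, Lw_cons, if_neg h2, if_pos h3, ih, dMin_cons, if_pos rfl]
    · rw [if_neg h1] at hZ
      by_cases h2 : i + 1 = pN
      · rw [if_pos h2] at hN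
        have ih := Lw_dMin R pz i hN.2 hZ.2 (by omega)
        have h3 : ¬ i < pz := by omega
        have h4 : i - 1 + 1 = pN - 1 := by omega
        rw [dMin_cons, if_neg h1, if_neg h3, Lw_cons, if_pos h4, Lw_cons, if_pos h2]
        exact ih
      · rw [if_neg h2] at hN
        have ih := Lw_dMin R pz pN hN.2 hZ.2 hlt
        by_cases h3 : i < pz
        · have h4 : ¬ i + 1 = pN - 1 := by omega
          have h5 : i + 1 < pN - 1 := by omega
          have h6 : i + 1 < pN := by omega
          rw [dMin_cons, if_neg h1, if_pos h3, Lw_cons, if_neg h4, if_pos h5, Lw_cons, if_neg h2,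
            if_pos h6, dMin_cons, if_neg h1, if_pos h3, ih]
        · by_cases h6 : i + 1 < pN
          · have h4 : ¬ i - 1 + 1 = pN - 1 := by omega
            have h5 : i - 1 + 1 < pN - 1 := by omega
            rw [dMin_cons, if_neg h1, if_neg h3, Lw_cons, if_neg h4, if_pos h5, Lw_cons, if_neg h2,
              if_pos h6, dMin_cons, if_neg h1, if_neg h3, ih]
          · have h4 : ¬ i - 1 + 1 = pN - 1 := by omega
            have h5 : ¬ i - 1 + 1 < pN - 1 := by omega
            rw [dMin_cons, if_neg h1, if_neg h3, Lw_cons, if_neg h4, if_neg h5, Lw_cons, if_neg h2,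
              if_neg h6, ih]

end Pool.Agent.BSq
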