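import Pool.Agent.Lib.MP_4f027a_co.Prob

/-!
# The process determines the commutation class
-/

namespace Pool.Agent.BSq

open List

theorem des_sw_iff_asc (i : ℕ) (u : List ℕ) : des i (sw i u) ↔ asc i u := by
  rw [← asc_sw_iff_des, sw_sw]

theorem wt_add {a b : ℝ} {j : ℕ} {v : List ℕ} (hn : v.Nodup) (hj : j + 1 < v.length) :
    wt a b j v + wt a b j (sw j v) = a + b := by
  unfold wt
  rcases asc_or_des hn hj with h | h
  · rw [if_neg (asc_not_des h), if_pos ((des_sw_iff_asc j v).mpr h)]; ring
  · have h2 : ¬ des j (sw j v) := by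
      rw [des_sw_iff_asc]
      intro h3
      exact asc_not_des h3 h
    rw [if_pos h, if_neg h2]

theorem sum_sw (w : List ℕ) (j : ℕ) (φ : List ℕ → ℝ) :
    ∑ v ∈ w.permutations.toFinset, φ (sw j v) = ∑ v ∈ w.permutations.toFinset, φ v := by
  apply Finset.sum_nbij' (sw j) (sw j)
  · intro v hv
    simp only [List.mem_toFinset, List.mem_permutations] at hv ⊢
    exact (sw_perm j v).trans hv
  · intro v hv
    simp only [List.mem_toFinset, List.mem_permutations] at hv ⊢
    exact (sw_perm j v).trans hv
  · intro v _; exact sw_sw j v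
  · intro v _; exact sw_sw j v
  · intro v _; rfl

theorem sum_wt {a b : ℝ} (hab : a + b = 1) (w : List ℕ) (hn : w.Nodup) (j : ℕ)
    (hj : j + 1 < w.length) (φ : List ℕ → ℝ) :
    ∑ v ∈ w.permutations.toFinset, wt a b j v * (φ v + φ (sw j v)) =
      ∑ v ∈ w.permutations.toFinset, φ v := by
  have h1 : ∑ v ∈ w.permutations.toFinset, wt a b j v * φ (sw j v) =
      ∑ v ∈ w.permutations.toFinset, wt a b j (sw j v) * φ v := by
    rw [← sum_sw w j (fun v => wt a b j (sw j v) * φ v)]
    simp only [sw_sw]
  calc ∑ v ∈ w.permutations.toFinset, wt a b j v * (φ v + φ (sw j v))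
      = ∑ v ∈ w.permutations.toFinset, wt a b j v * φ v +
        ∑ v ∈ w.permutations.toFinset, wt a b j v * φ (sw j v) := by
        rw [← Finset.sum_add_distrib]
        exact Finset.sum_congr rfl (fun v _ => by ring)
    _ = ∑ v ∈ w.permutations.toFinset, (wt a b j v + wt a b j (sw j v)) * φ v := by
        rw [h1, ← Finset.sum_add_distrib]
        exact Finset.sum_congr rfl (fun v _ => by ring)
    _ = ∑ v ∈ w.permutations.toFinset, φ v := by
        apply Finset.sum_congr rfl
        intro v hv
        simp only [List.mem_toFinset, List.mem_permutations] at hv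
        rw [wt_add (hv.nodup_iff.mpr hn) (by rw [hv.length_eq]; exact hj), hab, one_mul]

/-- law of the position of the largest label `N` -/
noncomputable def marg (w : List ℕ) (N : ℕ) (P : List ℕ → ℝ) (k : ℕ) : ℝ :=
  ∑ v ∈ w.permutations.toFinset, P (ins k N v)

theorem marg_K {a b : ℝ} (hab : a + b = 1) {w : List ℕ} (hn : w.Nodup) {N : ℕ}
    (hN : ∀ y ∈ w, y < N) (P : List ℕ → ℝ) {i k : ℕ} (hi : i < w.length) (hk : k ≤ w.length) :
    marg w N (K a b i P) k =
      if k = i then a * (marg w N P i + marg w N P (i + 1))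
      else if k = i + 1 then b * (marg w N P i + marg w N P (i + 1)) else marg w N P k := by
  unfold marg K
  have hlen : ∀ v ∈ w.permutations.toFinset, v.length = w.length := by
    intro v hv
    simp only [List.mem_toFinset, List.mem_permutations] at hv
    exact hv.length_eq
  have hvN : ∀ v ∈ w.permutations.toFinset, ∀ y ∈ v, y < N := by
    intro v hv y hy
    simp only [List.mem_toFinset, List.mem_permutations] at hv
    exact hN y (hv.subset hy)
  split_ifs with h1 h2
  · subst h1
    rw [← Finset.sum_add_distrib, Finset.mul_sum]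
    apply Finset.sum_congr rfl
    intro v hv
    rw [sw_ins_at' k N v (by rw [hlen v hv]; exact hi)]
    unfold wt
    rw [if_pos (des_ins_at (by rw [hlen v hv]; exact hi) (hvN v hv))]
  · subst h2
    rw [← Finset.sum_add_distrib, Finset.mul_sum]
    apply Finset.sum_congr rfl
    intro v hv
    rw [sw_ins_at i N v (by rw [hlen v hv]; exact hi)]
    unfold wt
    rw [if_neg (asc_not_des (asc_ins_at (by rw [hlen v hv]; exact hi) (hvN v hv)))]
    ring
  · rcases lt_or_ge (i + 1) k with h3 | h3
    · rw [← sum_wt hab w hn i (by omega) (fun v => P (ins k N v))]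
      apply Finset.sum_congr rfl
      intro v hv
      have := hlen v hv
      rw [wt_ins_lt h3 (by omega), sw_ins_lt i k N v h3 (by omega)]
    · obtain ⟨j, rfl⟩ : ∃ j, i = j + 1 := ⟨i - 1, by omega⟩
      rw [← sum_wt hab w hn j (by omega) (fun v => P (ins k N v))]
      apply Finset.sum_congr rfl
      intro v hv
      rw [wt_ins_gt (by omega), sw_ins_gt k j N v (by omega)]

theorem pair_K {a b : ℝ} (hab : a + b = 1) {w : List ℕ} (hn : w.Nodup) {N : ℕ}
    (hN : ∀ y ∈ w, y < N) (P : List ℕ → ℝ) {i : ℕ} (hi : i < w.length) (f : ℕ → ℝ) :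
    ∑ k ∈ Finset.range (w.length + 1), marg w N (K a b i P) k * f k =
      ∑ k ∈ Finset.range (w.length + 1), marg w N P k * Aop a b i f k := by
  rw [← sub_eq_zero, ← Finset.sum_sub_distrib]
  rw [Finset.sum_eq_add i (i + 1) (by omega)]
  · rw [marg_K hab hn hN P hi (by omega), marg_K hab hn hN P hi (by omega)]
    simp only [Aop, if_true, true_or, or_true]
    rw [if_neg (by omega)]
    ring
  · intro k hk hne
    have hk' : k ≤ w.length := by
      have := Finset.mem_range.mp hk; omega
    rw [marg_K hab hn hN P hi hk', if_neg hne.1, if_neg hne.2]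
    simp only [Aop]
    rw [if_neg (by tauto)]
    ring
  · intro h; exfalso; apply h; rw [Finset.mem_range]; omega
  · intro h; exfalso; apply h; rw [Finset.mem_range]; omega

theorem pair_Pf {a b : ℝ} (hab : a + b = 1) {w : List ℕ} (hn : w.Nodup) {N : ℕ}
    (hN : ∀ y ∈ w, y < N) (e : ℕ → ℝ) : ∀ (R : List ℕ) (P : List ℕ → ℝ),
    (∀ x ∈ R, x < w.length) →
    ∑ k ∈ Finset.range (w.length + 1), marg w N (Pf a b P R) k * e k =
      ∑ k ∈ Finset.range (w.length + 1), marg w N P k * gf a b e R k
  | [], _, _ => rfl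
  | i :: R, P, h => by
    simp only [Pf, gf]
    rw [pair_Pf hab hn hN e R (K a b i P) (fun x hx => h x (List.mem_cons_of_mem _ hx)),
      pair_K hab hn hN P (h i List.mem_cons_self)]

/-- point mass -/
noncomputable def dl (u0 : List ℕ) : List ℕ → ℝ := fun u => if u = u0 then 1 else 0

theorem valid_lt : ∀ (R u : List ℕ), valid u R → ∀ x ∈ R, x + 1 < u.length
  | [], _, _, x, hx => by simp at hx
  | i :: R, u, hv, x, hx => by
    rw [valid_cons] at hv
    rcases List.mem_cons.mp hx with rfl | hx
    · exact asc_lt_length hv.1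
    · have := valid_lt R (sw i u) hv.2 x hx
      rwa [sw_length] at this

theorem marg_dl {w : List ℕ} {N : ℕ} (hN : ∀ y ∈ w, y < N) {k : ℕ} (hk : k ≤ w.length) :
    marg w N (dl (ins w.length N w)) k = if k = w.length then 1 else 0 := by
  unfold marg dl
  have hNw : ∀ v : List ℕ, v.Perm w → N ∉ v := by
    intro v hv h
    exact lt_irrefl _ (hN N (hv.subset h))
  split_ifs with h
  · subst h
    rw [Finset.sum_eq_single w]
    · simp
    · intro v hv hne
      simp only [List.mem_toFinset, List.mem_permutations] at hv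
      rw [if_neg]
      intro h
      exact hne (ins_inj _ _ _ _ _ (hNw v hv) (hNw w (List.Perm.refl _))
        (by rw [hv.length_eq]) le_rfl h).2
    · intro h
      exfalso; apply h
      simp
  · apply Finset.sum_eq_zero
    intro v hv
    simp only [List.mem_toFinset, List.mem_permutations] at hv
    rw [if_neg]
    intro h'
    exact h (ins_inj _ _ _ _ _ (hNw v hv) (hNw w (List.Perm.refl _))
      (by rw [hv.length_eq]; exact hk) le_rfl h').1

theorem gf_of_P {a b : ℝ} (hab : a + b = 1) {w : List ℕ} (hn : w.Nodup) {N : ℕ}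
    (hN : ∀ y ∈ w, y < N) {R : List ℕ} (hv : valid (ins w.length N w) R) (e : ℕ → ℝ) :
    gf a b e R w.length = ∑ k ∈ Finset.range (w.length + 1),
      marg w N (Pf a b (dl (ins w.length N w)) R) k * e k := by
  rw [pair_Pf hab hn hN e R _ (fun x hx => by
    have := valid_lt R _ hv x hx
    rw [ins_length] at this; omega)]
  rw [Finset.sum_eq_single w.length]
  · rw [marg_dl hN le_rfl]; simp
  · intro k hk hne
    have : k ≤ w.length := by have := Finset.mem_range.mp hk; omega
    rw [marg_dl hN this, if_neg hne]; ring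
  · intro h; exfalso; apply h; rw [Finset.mem_range]; omega

theorem gf_eq_of_P_eq {a b : ℝ} (hab : a + b = 1) {w : List ℕ} (hn : w.Nodup) {N : ℕ}
    (hN : ∀ y ∈ w, y < N) {R1 R2 : List ℕ} (hv1 : valid (ins w.length N w) R1)
    (hv2 : valid (ins w.length N w) R2)
    (hP : ∀ u, u.Perm (ins w.length N w) →
      Pf a b (dl (ins w.length N w)) R1 u = Pf a b (dl (ins w.length N w)) R2 u)
    (e : ℕ → ℝ) : gf a b e R1 w.length = gf a b e R2 w.length := by
  rw [gf_of_P hab hn hN hv1, gf_of_P hab hn hN hv2]
  apply Finset.sum_congr rfl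
  intro k hk
  congr 1
  unfold marg
  apply Finset.sum_congr rfl
  intro v hv
  simp only [List.mem_toFinset, List.mem_permutations] at hv
  apply hP
  exact ((ins_perm _ _ _).trans (hv.cons N)).trans (ins_perm _ _ _).symm

/-! ### runs of the smallest label -/

theorem run_min : ∀ (X : List ℕ) (p z : ℕ) (v : List ℕ), p ≤ v.length → (∀ y ∈ v, z < y) →
    valid (ins p z v) X → (∀ e ∈ cr (ins p z v) X, z = e.1 ∨ z = e.2) →
    X = up p X.length ∧ act (ins p z v) X = ins (p + X.length) z v ∧
      p + X.length ≤ v.length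
  | [], p, z, v, hp, _, _, _ => by simp [up, hp]
  | i :: X, p, z, v, hp, hz, hv, hc => by
    rw [valid_cons] at hv
    have hmem := hc (pr i (ins p z v)) (by simp)
    rcases min_step hp hz hv.1 with ⟨e1, e2, e3⟩ | ⟨e1, e2, e3, e4⟩ | ⟨e1, e2, e3, e4⟩
    · subst e1
      obtain ⟨h1, h2, h3⟩ := run_min X (i + 1) z v (by omega) hz (e3 ▸ hv.2)
        (fun e he => hc e (by rw [cr_cons, e3]; exact List.mem_cons_of_mem _ he))
      refine ⟨?_, ?_, ?_⟩
      · simp only [List.length_cons, up]
        rw [← h1]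
      · rw [act_cons, e3, h2]; simp only [List.length_cons]; congr 1; omega
      · simp only [List.length_cons]; omega
    · exfalso
      rw [e4] at hmem
      have hm := pr_mem (asc_lt_length e2)
      have := hz _ hm.1
      have := hz _ hm.2
      omega
    · exfalso
      rw [e4] at hmem
      have hm := pr_mem (asc_lt_length e2)
      have := hz _ hm.1
      have := hz _ hm.2
      omega

theorem ins_ins : ∀ (m q N z : ℕ) (v : List ℕ), m ≤ q → q ≤ v.length →
    ins m N (ins q z v) = ins (q + 1) z (ins m N v)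
  | 0, q, N, z, v, _, _ => by simp
  | m + 1, 0, _, _, _, h, _ => by omega
  | m + 1, q + 1, N, z, [], _, h => by simp at h
  | m + 1, q + 1, N, z, y :: v, h, h' => by
    simp only [ins_succ]
    rw [ins_ins m q N z v (by omega) (by simpa using h')]

theorem Uw_ge : ∀ (R : List ℕ) (p : ℕ), okN p R → ∀ x ∈ Uw p R, fMax p R ≤ x
  | [], _, _, x, hx => by simp [Uw] at hx
  | i :: R, p, h, x, hx => by
    unfold okN at h
    rw [Uw_cons] at hx
    rw [fMax_cons]
    by_cases h1 : i + 1 = p
    · rw [if_pos h1] at hx h ⊢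
      exact Uw_ge R i h.2 x hx
    · rw [if_neg h1] at hx h ⊢
      by_cases h2 : i + 1 < p
      · rw [if_pos h2] at hx
        exact Uw_ge R p h.2 x hx
      · rw [if_neg h2] at hx
        rcases List.mem_cons.mp hx with rfl | hx
        · have := fMax_le R p; omega
        · exact Uw_ge R p h.2 x hx

theorem Comm.perm {R S : List ℕ} (h : Comm R S) : R.Perm S := by
  induction h with
  | refl => exact List.Perm.refl _
  | tail _ h2 ih =>
    refine ih.trans ?_
    obtain ⟨C, D, i, j, _, rfl, rfl⟩ := h2
    apply List.Perm.append_right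
    apply List.Perm.append_left
    exact List.Perm.swap _ _ _

theorem up_map_succ : ∀ (t p : ℕ), (up p t).map (· + 1) = up (p + 1) t
  | 0, _ => rfl
  | t + 1, p => by simp [up, up_map_succ t (p + 1)]

theorem act_ins_max_top {L : List ℕ} {N : ℕ} : ∀ {v : List ℕ}, (∀ x ∈ L, x + 1 < v.length) →
    act (ins v.length N v) L = ins v.length N (act v L) := by
  induction L with
  | nil => intro v _; rfl
  | cons i L ih =>
    intro v h
    have hi := h i List.mem_cons_self
    rw [act_cons, act_cons, sw_ins_lt i v.length N v hi le_rfl]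
    have := @ih (sw i v) (fun x hx => by rw [sw_length]; exact h x (List.mem_cons_of_mem _ hx))
    rw [sw_length] at this
    exact this

theorem act_dn (N : ℕ) : ∀ (k m : ℕ) (v : List ℕ), m + k ≤ v.length →
    act (ins (m + k) N v) (dn m k) = ins m N v
  | 0, m, v, _ => rfl
  | k + 1, m, v, h => by
    simp only [dn, act_cons]
    rw [show m + (k + 1) = (m + k) + 1 by omega, sw_ins_at (m + k) N v (by omega)]
    exact act_dn N k m v (by omega)

theorem fMin_eq {p q z : ℕ} {v w : List ℕ} {R : List ℕ} (hp : p ≤ v.length)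
    (hz : ∀ y ∈ v, z < y) (hv : valid (ins p z v) R)
    (hzw : z ∉ w) (hq : q ≤ w.length) (h : act (ins p z v) R = ins q z w) : fMin p R = q := by
  obtain ⟨h1, h2, h3, _, _⟩ := min_del R p z v hp hz hv
  rw [h2] at h
  have hzv : z ∉ act v (dMin p R) := by
    intro h
    exact lt_irrefl _ (hz z ((act_perm _ _).subset h))
  exact (ins_inj _ _ _ _ _ hzv hzw (by rw [act_length]; exact h3) hq h).1

/-- the key step: once the classes of the words with the largest and with the smallest label
deleted are known, the exit probability of the largest label determines the class -/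
theorem key {a b : ℝ} (ha : 0 < a) (hb : 0 < b) (hab : a + b = 1) {z N : ℕ} {w' : List ℕ}
    (hn : (z :: w').Nodup) (hz : ∀ y ∈ w', z < y) (hN : ∀ y ∈ z :: w', y < N)
    {R1 R2 : List ℕ}
    (hv1 : valid (ins (z :: w').length N (z :: w')) R1)
    (hv2 : valid (ins (z :: w').length N (z :: w')) R2)
    (hact : act (ins (z :: w').length N (z :: w')) R1 =
      act (ins (z :: w').length N (z :: w')) R2)
    (hg : ∀ e, gf a b e R1 (z :: w').length = gf a b e R2 (z :: w').length)
    (hD : Comm (dMax (z :: w').length R1) (dMax (z :: w').length R2))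
    (hfil : ∀ e ∈ cr (z :: w') (Lw (z :: w').length R2), ¬ (z = e.1 ∨ z = e.2) →
      e ∈ cr (z :: w') (Lw (z :: w').length R1))
    (hsub : ∀ e ∈ cr (z :: w') (Lw (z :: w').length R1),
      e ∈ cr (z :: w') (Lw (z :: w').length R2)) :
    Comm R1 R2 := by
  set v0 := z :: w' with hv0
  set m := v0.length with hm
  set L1 := Lw m R1 with hL1
  set L2 := Lw m R2 with hL2
  set U1 := Uw m R1 with hU1
  set U2 := Uw m R2 with hU2
  obtain ⟨vd1, ad1, fd1, ok1⟩ := max_del R1 m N v0 le_rfl hN hv1
  obtain ⟨vd2, ad2, fd2, ok2⟩ := max_del R2 m N v0 le_rfl hN hv2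
  have hNv : ∀ R, N ∉ act v0 R := by
    intro R h
    exact lt_irrefl _ (hN N ((act_perm _ _).subset h))
  have hff : fMax m R1 = fMax m R2 ∧ act v0 (dMax m R1) = act v0 (dMax m R2) := by
    rw [ad1, ad2] at hact
    exact ins_inj _ _ _ _ _ (hNv _) (hNv _) (by rw [act_length]; exact fd1)
      (by rw [act_length]; exact fd2) hact
  set mm := fMax m R1 with hmm
  have c1 := comm_LDU R1 m ok1
  have c2 := comm_LDU R2 m ok2
  rw [Dw_eq] at c1 c2
  rw [← hff.1, ← hL2, ← hU2] at c2
  rw [← hL1, ← hU1, ← hmm] at c1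
  have d1 := comm_dMax R1 m ok1
  have d2 := comm_dMax R2 m ok2
  have d12 : Comm (L1 ++ U1) (L2 ++ U2) := (d1.symm.trans hD).trans d2
  have vLU1 : valid v0 (L1 ++ U1) := (comm_inv vd1 d1).1
  have vLU2 : valid v0 (L2 ++ U2) := (comm_inv vd2 d2).1
  obtain ⟨X, hX1, hX2⟩ := cancel L1 v0 U1 L2 U2 hn vLU1 d12 hsub
  -- the run `X`
  have vL2 : valid v0 L2 := ((valid_append _ _ _).mp vLU2).1
  obtain ⟨vLX, aLX, pLX⟩ := comm_inv vL2 hX1
  have vLX' := (valid_append _ _ _).mp vLX
  have hz0 : ins 0 z w' = v0 := by simp [hv0]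
  obtain ⟨_, aL1, fL1, _, _⟩ := min_del L1 0 z w' (Nat.zero_le _) hz (hz0 ▸ vLX'.1)
  rw [hz0] at aL1
  set p0 := fMin 0 L1 with hp0
  set v' := act w' (dMin 0 L1) with hv'
  have hz' : ∀ y ∈ v', z < y := fun y hy => hz y ((act_perm _ _).subset hy)
  have hlv' : v'.length = w'.length := act_length _ _
  have hXz : ∀ e ∈ cr (ins p0 z v') X, z = e.1 ∨ z = e.2 := by
    intro e he
    rw [← aL1] at he
    by_contra hcon
    have h1 : e ∈ cr v0 (L1 ++ X) := by
      rw [cr_append]; exact List.mem_append_right _ he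
    have h2 : e ∈ cr v0 L2 := pLX.mem_iff.mp h1
    have h3 := hfil e h2 hcon
    have h4 := cr_nodup _ _ hn vLX
    rw [cr_append] at h4
    exact (List.nodup_append.mp h4).2.2 e h3 e he rfl
  obtain ⟨x1, x2, x3⟩ := run_min X p0 z v' (by omega) hz' (aL1 ▸ vLX'.2) hXz
  set t := X.length with ht
  -- main comparison
  have key2 : ¬ 0 < t := by
    intro htpos
    -- arrangement before `U2⁺`
    have hLlt2 : ∀ x ∈ L2, x + 1 < v0.length := fun x hx => Lw_lt R2 m x hx
    have hLlt1 : ∀ x ∈ L1, x + 1 < v0.length := fun x hx => Lw_lt R1 m x hx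
    obtain ⟨vR2, aR2, _⟩ := comm_inv hv2 c2
    have vR2' := (valid_append _ _ _).mp vR2
    have vR2'' := (valid_append _ _ _).mp vR2'.2
    have b1 : act (ins m N v0) L2 = ins m N (ins (p0 + t) z v') := by
      rw [hm, act_ins_max_top hLlt2, ← aLX, act_append, aL1, x2]
    have hmmle : mm ≤ m := fMax_le R1 m
    have b2 : act (act (ins m N v0) L2) (dn mm (m - mm)) = ins mm N (ins (p0 + t) z v') := by
      rw [b1]
      have : m = mm + (m - mm) := by omega
      rw [this]
      have h5 : mm + (m - mm) - mm = m - mm := by omega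
      rw [h5]
      apply act_dn
      rw [ins_length, hlv']
      have : m = w'.length + 1 := by rw [hm, hv0]; rfl
      omega
    have hlm : m = w'.length + 1 := by rw [hm, hv0]; rfl
    -- `p0 ≥ mm`
    have hp0mm : mm ≤ p0 := by
      have h6 : p0 ∈ X := by
        rw [x1]
        obtain ⟨t', ht'⟩ : ∃ t', t = t' + 1 := ⟨t - 1, by omega⟩
        rw [ht']; simp [up]
      have h7 : p0 ∈ U1 := hX2.perm.mem_iff.mpr (List.mem_append_left _ h6)
      exact Uw_ge R1 m ok1 p0 h7
    have b3 : ins mm N (ins (p0 + t) z v') = ins (p0 + t + 1) z (ins mm N v') :=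
      ins_ins mm (p0 + t) N z v' (by omega) x3
    have hzN : ∀ y ∈ ins mm N v', z < y := by
      intro y hy
      rcases List.mem_cons.mp ((ins_perm _ _ _).subset hy) with rfl | hy
      · exact hN z (by rw [hv0]; exact List.mem_cons_self)
      · exact hz' y hy
    have vU2 : valid (ins (p0 + t + 1) z (ins mm N v')) (U2.map (· + 1)) := by
      rw [← b3, ← b2]; exact vR2''.2
    -- final position of `z`
    set P := p0 + t + 1 with hP
    set fz := fMin P (U2.map (· + 1)) with hfz
    have hPle : P ≤ (ins mm N v').length := by rw [ins_length]; omega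
    obtain ⟨g1, g2⟩ := gf_min (a := a) hb (U2.map (· + 1)) P z (ins mm N v') hPle hzN vU2
    rw [← hfz] at g1 g2
    set f2 := gf a b (ind fz) (U2.map (· + 1)) with hf2
    -- compute both sides
    have e1 : gf a b (ind fz) R1 m = Phi a b mm (gf a b (ind fz) (U1.map (· + 1))) (m - mm) := by
      rw [comm_gf a b _ c1, gf_append, gf_above a b _ m L1 (fun x hx => Lw_lt R1 m x hx),
        gf_append]
      have h8 := gf_dn a b mm (gf a b (ind fz) (U1.map (· + 1))) (m - mm)
      rw [show mm + (m - mm) = m by omega] at h8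
      exact h8
    have e2 : gf a b (ind fz) R2 m = Phi a b mm f2 (m - mm) := by
      rw [comm_gf a b _ c2, gf_append, gf_above a b _ m L2 (fun x hx => Lw_lt R2 m x hx),
        gf_append]
      have h8 := gf_dn a b mm (gf a b (ind fz) (U2.map (· + 1))) (m - mm)
      rw [show mm + (m - mm) = m by omega] at h8
      exact h8
    have hU1c : Comm (U1.map (· + 1)) (up (p0 + 1) t ++ U2.map (· + 1)) := by
      have h9 := hX2.map (· + 1) (fun i j hij => by unfold Far at *; omega)
      rw [List.map_append] at h9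
      rw [x1, up_map_succ] at h9
      exact h9
    have e3 : gf a b (ind fz) (U1.map (· + 1)) = gf a b f2 (up (p0 + 1) t) := by
      rw [comm_gf a b _ hU1c, gf_append]
    have h10 := (gf_up ha hb hab mm (m - mm) t (p0 + 1) f2
      (fun j hj => g1 j (by omega))
      (by rw [show p0 + 1 + t = P by omega]; exact g2) (by omega)
      (by omega)).2.2.2 htpos
    have h11 := hg (ind fz)
    rw [e1, e2, e3] at h11
    exact absurd h11 (ne_of_lt h10)
  have hX0 : X = [] := by
    apply List.eq_nil_of_length_eq_zero; omega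
  subst hX0
  simp only [List.append_nil, List.nil_append] at hX1 hX2
  have h12 := hX2.map (· + 1) (fun i j hij => by unfold Far at *; omega)
  have h13 : Comm (L1 ++ (dn mm (m - mm) ++ U1.map (· + 1)))
      (L2 ++ (dn mm (m - mm) ++ U2.map (· + 1))) :=
    (hX1.symm.right _).trans ((h12.left _).left _)
  exact (c1.trans h13).trans c2.symm

theorem ins_append : ∀ (v : List ℕ) (N : ℕ), ins v.length N v = v ++ [N]
  | [], N => by simp
  | y :: v, N => by simp [ins_append v N]

theorem valid_short {u R : List ℕ} (hu : u.length ≤ 1) (hv : valid u R) : R = [] := by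
  cases R with
  | nil => rfl
  | cons i R =>
    have := valid_lt _ _ hv i List.mem_cons_self
    omega

/-- **Main theorem** on lists of labels. -/
theorem main {a b : ℝ} (ha : 0 < a) (hb : 0 < b) (hab : a + b = 1) : ∀ (n : ℕ) (u0 : List ℕ),
    u0.length = n → u0.Pairwise (· < ·) → ∀ R1 R2 : List ℕ, valid u0 R1 → valid u0 R2 →
    act u0 R1 = act u0 R2 →
    (∀ u, u.Perm u0 → Pf a b (dl u0) R1 u = Pf a b (dl u0) R2 u) → Comm R1 R2
  | 0, u0, hl, _, R1, R2, h1, h2, _, _ => by
    rw [valid_short (by omega) h1, valid_short (by omega) h2]; exact Comm.refl _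
  | 1, u0, hl, _, R1, R2, h1, h2, _, _ => by
    rw [valid_short (by omega) h1, valid_short (by omega) h2]; exact Comm.refl _
  | n + 2, u0, hl, hs, R1, R2, hv1, hv2, hact, hP => by
    obtain ⟨z, w', N, rfl⟩ : ∃ z w' N, u0 = z :: (w' ++ [N]) := by
      match u0, hl with
      | z :: y :: l, _ =>
        refine ⟨z, (y :: l).dropLast, (y :: l).getLast (by simp), ?_⟩
        rw [List.dropLast_append_getLast]
    have hlw : w'.length = n := by simp at hl; omega
    set v0 := z :: w' with hv0
    have hlv : v0.length = n + 1 := by rw [hv0]; simp [hlw]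
    have hu0 : z :: (w' ++ [N]) = ins v0.length N v0 := by
      rw [ins_append, hv0]; simp
    have hu0' : z :: (w' ++ [N]) = ins 0 z (w' ++ [N]) := by simp
    have hs' := List.pairwise_cons.mp hs
    have hs'' := List.pairwise_append.mp hs'.2
    have hzN : z < N := hs'.1 N (by simp)
    have hz : ∀ y ∈ w', z < y := fun y hy => hs'.1 y (by simp [hy])
    have hN : ∀ y ∈ v0, y < N := by
      intro y hy
      rw [hv0] at hy
      rcases List.mem_cons.mp hy with rfl | hy
      · exact hzN
      · exact hs''.2.2 y hy N (by simp)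
    have hsv0 : v0.Pairwise (· < ·) := List.pairwise_cons.mpr ⟨hz, hs''.1⟩
    have hnv0 : v0.Nodup := hsv0.imp (fun h => ne_of_lt h)
    have hzw : ∀ y ∈ w' ++ [N], z < y := hs'.1
    -- deletion of the largest label
    have hv1N : valid (ins v0.length N v0) R1 := hu0 ▸ hv1
    have hv2N : valid (ins v0.length N v0) R2 := hu0 ▸ hv2
    obtain ⟨vd1, ad1, fd1, ok1⟩ := max_del R1 v0.length N v0 le_rfl hN hv1N
    obtain ⟨vd2, ad2, fd2, ok2⟩ := max_del R2 v0.length N v0 le_rfl hN hv2N
    have hNv : ∀ R, N ∉ act v0 R := by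
      intro R h
      exact lt_irrefl _ (hN N ((act_perm _ _).subset h))
    have hactN : act (ins v0.length N v0) R1 = act (ins v0.length N v0) R2 := by
      rw [← hu0]; exact hact
    have hff : fMax v0.length R1 = fMax v0.length R2 ∧
        act v0 (dMax v0.length R1) = act v0 (dMax v0.length R2) := by
      have := hactN
      rw [ad1, ad2] at this
      exact ins_inj _ _ _ _ _ (hNv _) (hNv _) (by rw [act_length]; exact fd1)
        (by rw [act_length]; exact fd2) this
    have hdl0 : ∀ k < v0.length, ∀ v : List ℕ, v.length = v0.length → (∀ y ∈ v, y < N) →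
        dl (ins v0.length N v0) (ins k N v) = 0 := by
      intro k hk v hlv' hvN
      unfold dl
      rw [if_neg]
      intro h
      have := (ins_inj _ _ _ _ _ (fun h => lt_irrefl _ (hvN N h))
        (fun h => lt_irrefl _ (hN N h)) (by omega) le_rfl h).1
      omega
    have hdl1 : ∀ v : List ℕ, v.length = v0.length → (∀ y ∈ v, y < N) →
        dl (ins v0.length N v0) (ins v0.length N v) = 1 * dl v0 v := by
      intro v hlv' hvN
      unfold dl
      by_cases h : v = v0
      · rw [h]; simp
      · rw [if_neg h, if_neg]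
        · ring
        · intro h'
          exact h (ins_inj _ _ _ _ _ (fun h => lt_irrefl _ (hvN N h))
            (fun h => lt_irrefl _ (hN N h)) (by omega) le_rfl h').2
    have IH1 : Comm (dMax v0.length R1) (dMax v0.length R2) := by
      refine main ha hb hab (n + 1) v0 hlv hsv0 _ _ vd1 vd2 hff.2 ?_
      intro u hu
      have huN : ∀ y ∈ u, y < N := fun y hy => hN y (hu.subset hy)
      have h1 := max_P a b R1 v0.length N v0 (dl (ins v0.length N v0)) (dl v0) 1 le_rfl hN hv1N
        hdl0 hdl1 u hu.length_eq huN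
      have h2 := max_P a b R2 v0.length N v0 (dl (ins v0.length N v0)) (dl v0) 1 le_rfl hN hv2N
        hdl0 hdl1 u hu.length_eq huN
      have h3 := hP (ins (fMax v0.length R1) N u) (by
        rw [hu0]
        exact ((ins_perm _ _ _).trans (hu.cons N)).trans (ins_perm _ _ _).symm)
      rw [hu0, h1, hff.1, h2] at h3
      have hpos : (0 : ℝ) < 1 * a ^ (v0.length - fMax v0.length R2) := by positivity
      exact mul_left_cancel₀ (ne_of_gt hpos) h3
    -- deletion of the smallest label
    have hv1z : valid (ins 0 z (w' ++ [N])) R1 := hu0' ▸ hv1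
    have hv2z : valid (ins 0 z (w' ++ [N])) R2 := hu0' ▸ hv2
    obtain ⟨ve1, ae1, fe1, oe1, _⟩ := min_del R1 0 z (w' ++ [N]) (Nat.zero_le _) hzw hv1z
    obtain ⟨ve2, ae2, fe2, oe2, _⟩ := min_del R2 0 z (w' ++ [N]) (Nat.zero_le _) hzw hv2z
    have hzv : ∀ R, z ∉ act (w' ++ [N]) R := by
      intro R h
      exact lt_irrefl _ (hzw z ((act_perm _ _).subset h))
    have hff2 : fMin 0 R1 = fMin 0 R2 ∧
        act (w' ++ [N]) (dMin 0 R1) = act (w' ++ [N]) (dMin 0 R2) := by
      have := hact
      rw [hu0', ae1, ae2] at this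
      exact ins_inj _ _ _ _ _ (hzv _) (hzv _) (by rw [act_length]; exact fe1)
        (by rw [act_length]; exact fe2) this
    have hdm0 : ∀ k, 0 < k → k ≤ (w' ++ [N]).length → ∀ v : List ℕ,
        v.length = (w' ++ [N]).length → (∀ y ∈ v, z < y) →
        dl (ins 0 z (w' ++ [N])) (ins k z v) = 0 := by
      intro k hk hkl v hlv' hvz
      unfold dl
      rw [if_neg]
      intro h
      have := (ins_inj _ _ _ _ _ (fun h => lt_irrefl _ (hvz z h))
        (fun h => lt_irrefl _ (hzw z h)) (by omega) (Nat.zero_le _) h).1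
      omega
    have hdm1 : ∀ v : List ℕ, v.length = (w' ++ [N]).length → (∀ y ∈ v, z < y) →
        dl (ins 0 z (w' ++ [N])) (ins 0 z v) = 1 * dl (w' ++ [N]) v := by
      intro v hlv' hvz
      unfold dl
      by_cases h : v = w' ++ [N]
      · rw [h]; simp
      · rw [if_neg h, if_neg]
        · ring
        · intro h'
          exact h (ins_inj _ _ _ _ _ (fun h => lt_irrefl _ (hvz z h))
            (fun h => lt_irrefl _ (hzw z h)) (Nat.zero_le _) (Nat.zero_le _) h').2
    have IH2 : Comm (dMin 0 R1) (dMin 0 R2) := by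
      refine main ha hb hab (n + 1) (w' ++ [N]) (by simp [hlw]) hs'.2 _ _ ve1 ve2 hff2.2 ?_
      intro u hu
      have huz : ∀ y ∈ u, z < y := fun y hy => hzw y (hu.subset hy)
      have h1 := min_P a b R1 0 z (w' ++ [N]) (dl (ins 0 z (w' ++ [N]))) (dl (w' ++ [N])) 1
        (Nat.zero_le _) hzw hv1z hdm0 hdm1 u hu.length_eq huz
      have h2 := min_P a b R2 0 z (w' ++ [N]) (dl (ins 0 z (w' ++ [N]))) (dl (w' ++ [N])) 1
        (Nat.zero_le _) hzw hv2z hdm0 hdm1 u hu.length_eq huz
      have h3 := hP (ins (fMin 0 R1) z u) (by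
        rw [hu0']
        exact ((ins_perm _ _ _).trans (hu.cons z)).trans (ins_perm _ _ _).symm)
      rw [hu0', h1, hff2.1, h2] at h3
      have hpos : (0 : ℝ) < 1 * a ^ (fMin 0 R2 - 0) := by positivity
      exact mul_left_cancel₀ (ne_of_gt hpos) h3
    -- walkers
    have hg : ∀ e, gf a b e R1 v0.length = gf a b e R2 v0.length :=
      gf_eq_of_P_eq hab hnv0 hN hv1N hv2N (by rw [← hu0]; exact hP)
    -- the words below the largest label
    have hL : Comm (dMin 0 (Lw v0.length R1)) (dMin 0 (Lw v0.length R2)) := by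
      have h0 : 0 < v0.length := by omega
      rw [← Lw_dMin R1 0 v0.length ok1 oe1 h0, ← Lw_dMin R2 0 v0.length ok2 oe2 h0]
      exact comm_Lw IH2 _
    have d1 := comm_dMax R1 v0.length ok1
    have d2 := comm_dMax R2 v0.length ok2
    have d12 : Comm (Lw v0.length R1 ++ Uw v0.length R1) (Lw v0.length R2 ++ Uw v0.length R2) :=
      (d1.symm.trans IH1).trans d2
    have vLU1 := (comm_inv vd1 d1).1
    have vLU2 := (comm_inv vd2 d2).1
    have vL1 := ((valid_append _ _ _).mp vLU1).1
    have vL2 := ((valid_append _ _ _).mp vLU2).1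
    have hz0 : ins 0 z w' = v0 := by simp [hv0]
    obtain ⟨m1, _, _, _, f1⟩ := min_del (Lw v0.length R1) 0 z w' (Nat.zero_le _) hz (hz0 ▸ vL1)
    obtain ⟨m2, _, _, _, f2⟩ := min_del (Lw v0.length R2) 0 z w' (Nat.zero_le _) hz (hz0 ▸ vL2)
    rw [hz0] at f1 f2
    have hperm : (cr w' (dMin 0 (Lw v0.length R2))).Perm (cr w' (dMin 0 (Lw v0.length R1))) :=
      (comm_inv m1 hL).2.2
    rw [← f1, ← f2] at hperm
    have hfil12 : ∀ e ∈ cr v0 (Lw v0.length R2), ¬ (z = e.1 ∨ z = e.2) →
        e ∈ cr v0 (Lw v0.length R1) := by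
      intro e he hze
      have h1 : e ∈ (cr v0 (Lw v0.length R2)).filter (fun e => ¬ (z = e.1 ∨ z = e.2)) := by
        rw [List.mem_filter]; exact ⟨he, by simpa using hze⟩
      exact List.mem_of_mem_filter (hperm.mem_iff.mp h1)
    have hfil21 : ∀ e ∈ cr v0 (Lw v0.length R1), ¬ (z = e.1 ∨ z = e.2) →
        e ∈ cr v0 (Lw v0.length R2) := by
      intro e he hze
      have h1 : e ∈ (cr v0 (Lw v0.length R1)).filter (fun e => ¬ (z = e.1 ∨ z = e.2)) := by
        rw [List.mem_filter]; exact ⟨he, by simpa using hze⟩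
      exact List.mem_of_mem_filter (hperm.mem_iff.mpr h1)
    have hzs := comm_zs hnv0 vLU1 d12 z
    rw [cr_append, cr_append] at hzs
    unfold zs at hzs
    rw [List.filter_append, List.filter_append] at hzs
    rcases List.append_eq_append_iff.mp hzs with ⟨c, h1, h2⟩ | ⟨c, h1, h2⟩
    · -- crossings below in `R2` are among those of `R1`
      refine (key ha hb hab hnv0 hz hN hv2N hv1N hactN.symm (fun e => (hg e).symm) IH1.symm
        hfil21 ?_).symm
      intro e he
      by_cases hze : z = e.1 ∨ z = e.2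
      · have h3 : e ∈ (cr v0 (Lw v0.length R2)).filter (fun e => z = e.1 ∨ z = e.2) := by
          rw [List.mem_filter]; exact ⟨he, by simpa using hze⟩
        have h4 : e ∈ (cr v0 (Lw v0.length R1)).filter (fun e => z = e.1 ∨ z = e.2) := by
          rw [h1]; exact List.mem_append_left _ h3
        exact List.mem_of_mem_filter h4
      · exact hfil12 e he hze
    · refine key ha hb hab hnv0 hz hN hv1N hv2N hactN hg IH1 hfil12 ?_
      intro e he
      by_cases hze : z = e.1 ∨ z = e.2
      · have h3 : e ∈ (cr v0 (Lw v0.length R1)).filter (fun e => z = e.1 ∨ z = e.2) := by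
          rw [List.mem_filter]; exact ⟨he, by simpa using hze⟩
        have h4 : e ∈ (cr v0 (Lw v0.length R2)).filter (fun e => z = e.1 ∨ z = e.2) := by
          rw [h1]; exact List.mem_append_left _ h3
        exact List.mem_of_mem_filter h4
      · exact hfil21 e he hze

end Pool.Agent.BSq
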