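import Pool.Agent.Lib.MP_4f027a_co.Del

/-!
# The random process attached to a word
-/

namespace Pool.Agent.BSq

open List

open Classical in
/-- weight of the arrangement `u` for the letter `i` -/
noncomputable def wt (a b : ℝ) (i : ℕ) (u : List ℕ) : ℝ := if des i u then a else b

/-- one step of the process -/
noncomputable def K (a b : ℝ) (i : ℕ) (P : List ℕ → ℝ) : List ℕ → ℝ :=
  fun u => wt a b i u * (P u + P (sw i u))

/-- the process -/
noncomputable def Pf (a b : ℝ) (P : List ℕ → ℝ) : List ℕ → (List ℕ → ℝ)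
  | [] => P
  | i :: R => Pf a b (K a b i P) R

theorem wt_ins_lt {a b : ℝ} {i p x : ℕ} {v : List ℕ} (h : i + 1 < p) (h' : p ≤ v.length) :
    wt a b i (ins p x v) = wt a b i v := by
  have h1 := des_ins_lt i p x v h h'
  by_cases h2 : des i v
  · unfold wt; rw [if_pos h2, if_pos (h1.mpr h2)]
  · unfold wt; rw [if_neg h2, if_neg (fun h3 => h2 (h1.mp h3))]

theorem wt_ins_gt {a b : ℝ} {j p x : ℕ} {v : List ℕ} (h : p ≤ j) :
    wt a b (j + 1) (ins p x v) = wt a b j v := by
  have h1 := des_ins_gt p j x v h
  by_cases h2 : des j v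
  · unfold wt; rw [if_pos h2, if_pos (h1.mpr h2)]
  · unfold wt; rw [if_neg h2, if_neg (fun h3 => h2 (h1.mp h3))]

theorem sw_ins_cases (i k x : ℕ) (v : List ℕ) (hk : k ≤ v.length) :
    ∃ k' v', sw i (ins k x v) = ins k' x v' ∧ v'.Perm v ∧ k' ≤ v.length ∧
      (k' = k ∨ (k' = i ∧ k = i + 1) ∨ (k' = i + 1 ∧ k = i)) := by
  rcases lt_trichotomy (i + 1) k with h | h | h
  · exact ⟨k, sw i v, sw_ins_lt i k x v h hk, sw_perm i v, hk, Or.inl rfl⟩
  · subst h
    exact ⟨i, v, sw_ins_at i x v (by omega), List.Perm.refl _, by omega, Or.inr (Or.inl ⟨rfl, rfl⟩)⟩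
  · rcases Nat.eq_or_lt_of_le (show k ≤ i by omega) with h2 | h2
    · subst h2
      by_cases h3 : k < v.length
      · exact ⟨k + 1, v, sw_ins_at' k x v h3, List.Perm.refl _, by omega,
          Or.inr (Or.inr ⟨rfl, rfl⟩)⟩
      · have h4 : k = v.length := by omega
        refine ⟨k, v, ?_, List.Perm.refl _, by omega, Or.inl rfl⟩
        subst h4
        have : ∀ v : List ℕ, sw v.length (ins v.length x v) = ins v.length x v := by
          intro v
          induction v with
          | nil => simp
          | cons y v ih => simp [ih]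
        exact this v
    · obtain ⟨j, rfl⟩ : ∃ j, i = j + 1 := ⟨i - 1, by omega⟩
      exact ⟨k, sw j v, sw_ins_gt k j x v (by omega), sw_perm j v, hk, Or.inl rfl⟩

theorem max_P (a b : ℝ) : ∀ (R : List ℕ) (p N : ℕ) (w : List ℕ) (P0 Q0 : List ℕ → ℝ) (c : ℝ),
    p ≤ w.length → (∀ y ∈ w, y < N) → valid (ins p N w) R →
    (∀ k < p, ∀ v : List ℕ, v.length = w.length → (∀ y ∈ v, y < N) → P0 (ins k N v) = 0) →
    (∀ v : List ℕ, v.length = w.length → (∀ y ∈ v, y < N) → P0 (ins p N v) = c * Q0 v) →
    ∀ v : List ℕ, v.length = w.length → (∀ y ∈ v, y < N) →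
      Pf a b P0 R (ins (fMax p R) N v) = c * a ^ (p - fMax p R) * Pf a b Q0 (dMax p R) v
  | [], p, N, w, P0, Q0, c, hp, hN, hv, h0, h1, v, hl, hvN => by
    simpa [Pf, fMax, dMax] using h1 v hl hvN
  | i :: R, p, N, w, P0, Q0, c, hp, hN, hv, h0, h1, v, hl, hvN => by
    rw [valid_cons] at hv
    rcases max_step hp hN hv.1 with ⟨e1, e2, e3⟩ | ⟨e1, e2, e3, _⟩ | ⟨e1, e2, e3, _⟩
    · have h0' : ∀ k < i, ∀ v : List ℕ, v.length = w.length → (∀ y ∈ v, y < N) →
          K a b i P0 (ins k N v) = 0 := by
        intro k hk v hl hvN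
        obtain ⟨k', v', q1, q2, q3, q4⟩ := sw_ins_cases i k N v (by omega)
        unfold K
        rw [q1, h0 k (by omega) v hl hvN, h0 k' (by omega) v' (q2.length_eq.trans hl)
          (fun y hy => hvN y (q2.subset hy))]
        ring
      have h1' : ∀ v : List ℕ, v.length = w.length → (∀ y ∈ v, y < N) →
          K a b i P0 (ins i N v) = (c * a) * Q0 v := by
        intro v hl hvN
        unfold K
        rw [sw_ins_at' i N v (by omega), h0 i (by omega) v hl hvN, e1, h1 v hl hvN]
        unfold wt
        rw [if_pos (des_ins_at (by omega) hvN)]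
        ring
      have ih := max_P a b R i N w (K a b i P0) Q0 (c * a) (by omega) hN (e3 ▸ hv.2) h0' h1' v hl
        hvN
      have hf := fMax_le R i
      have e4 : p - fMax i R = (i - fMax i R) + 1 := by omega
      simp only [fMax, dMax, e1, if_true, Pf, e4, pow_succ]
      rw [ih]; ring
    · have hNw : ∀ y ∈ sw i w, y < N := fun y hy => hN y ((sw_perm i w).subset hy)
      have h0' : ∀ k < p, ∀ v : List ℕ, v.length = (sw i w).length → (∀ y ∈ v, y < N) →
          K a b i P0 (ins k N v) = 0 := by
        intro k hk v hl hvN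
        rw [sw_length] at hl
        obtain ⟨k', v', q1, q2, q3, q4⟩ := sw_ins_cases i k N v (by omega)
        unfold K
        rw [q1, h0 k (by omega) v hl hvN, h0 k' (by omega) v' (q2.length_eq.trans hl)
          (fun y hy => hvN y (q2.subset hy))]
        ring
      have h1' : ∀ v : List ℕ, v.length = (sw i w).length → (∀ y ∈ v, y < N) →
          K a b i P0 (ins p N v) = c * K a b i Q0 v := by
        intro v hl hvN
        rw [sw_length] at hl
        unfold K
        rw [wt_ins_lt e1 (by omega), sw_ins_lt i p N v e1 (by omega), h1 v hl hvN,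
          h1 (sw i v) (by rw [sw_length]; exact hl) (fun y hy => hvN y ((sw_perm i v).subset hy))]
        ring
      have ih := max_P a b R p N (sw i w) (K a b i P0) (K a b i Q0) c
        (by rw [sw_length]; exact hp) hNw (e3 ▸ hv.2) h0' h1' v (by rw [sw_length]; exact hl) hvN
      have hne : ¬ i + 1 = p := by omega
      simp only [fMax, dMax, hne, e1, if_false, if_true, Pf]
      exact ih
    · obtain ⟨j, rfl⟩ : ∃ j, i = j + 1 := ⟨i - 1, by omega⟩
      simp only [Nat.add_sub_cancel] at e2 e3
      have hNw : ∀ y ∈ sw j w, y < N := fun y hy => hN y ((sw_perm j w).subset hy)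
      have h0' : ∀ k < p, ∀ v : List ℕ, v.length = (sw j w).length → (∀ y ∈ v, y < N) →
          K a b (j + 1) P0 (ins k N v) = 0 := by
        intro k hk v hl hvN
        rw [sw_length] at hl
        obtain ⟨k', v', q1, q2, q3, q4⟩ := sw_ins_cases (j + 1) k N v (by omega)
        unfold K
        rw [q1, h0 k (by omega) v hl hvN, h0 k' (by omega) v' (q2.length_eq.trans hl)
          (fun y hy => hvN y (q2.subset hy))]
        ring
      have h1' : ∀ v : List ℕ, v.length = (sw j w).length → (∀ y ∈ v, y < N) →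
          K a b (j + 1) P0 (ins p N v) = c * K a b j Q0 v := by
        intro v hl hvN
        rw [sw_length] at hl
        unfold K
        rw [wt_ins_gt (by omega), sw_ins_gt p j N v (by omega), h1 v hl hvN,
          h1 (sw j v) (by rw [sw_length]; exact hl) (fun y hy => hvN y ((sw_perm j v).subset hy))]
        ring
      have ih := max_P a b R p N (sw j w) (K a b (j + 1) P0) (K a b j Q0) c
        (by rw [sw_length]; exact hp) hNw (e3 ▸ hv.2) h0' h1' v (by rw [sw_length]; exact hl) hvN
      have hne : ¬ j + 1 + 1 = p := by omega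
      have hne' : ¬ j + 1 + 1 < p := by omega
      simp only [fMax, dMax, hne, hne', if_false, Pf, Nat.add_sub_cancel]
      exact ih

theorem min_P (a b : ℝ) : ∀ (R : List ℕ) (p z : ℕ) (w : List ℕ) (P0 Q0 : List ℕ → ℝ) (c : ℝ),
    p ≤ w.length → (∀ y ∈ w, z < y) → valid (ins p z w) R →
    (∀ k, p < k → k ≤ w.length → ∀ v : List ℕ, v.length = w.length → (∀ y ∈ v, z < y) →
      P0 (ins k z v) = 0) →
    (∀ v : List ℕ, v.length = w.length → (∀ y ∈ v, z < y) → P0 (ins p z v) = c * Q0 v) →
    ∀ v : List ℕ, v.length = w.length → (∀ y ∈ v, z < y) →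
      Pf a b P0 R (ins (fMin p R) z v) = c * a ^ (fMin p R - p) * Pf a b Q0 (dMin p R) v
  | [], p, z, w, P0, Q0, c, hp, hz, hv, h0, h1, v, hl, hvz => by
    simpa [Pf, fMin, dMin] using h1 v hl hvz
  | i :: R, p, z, w, P0, Q0, c, hp, hz, hv, h0, h1, v, hl, hvz => by
    rw [valid_cons] at hv
    rcases min_step hp hz hv.1 with ⟨e1, e2, e3⟩ | ⟨e1, e2, e3, _⟩ | ⟨e1, e2, e3, _⟩
    · subst e1
      have h0' : ∀ k, i + 1 < k → k ≤ w.length → ∀ v : List ℕ, v.length = w.length →
          (∀ y ∈ v, z < y) → K a b i P0 (ins k z v) = 0 := by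
        intro k hk hkl v hl hvz
        obtain ⟨k', v', q1, q2, q3, q4⟩ := sw_ins_cases i k z v (by omega)
        unfold K
        rw [q1, h0 k (by omega) (by omega) v hl hvz, h0 k' (by omega) (by omega) v'
          (q2.length_eq.trans hl) (fun y hy => hvz y (q2.subset hy))]
        ring
      have h1' : ∀ v : List ℕ, v.length = w.length → (∀ y ∈ v, z < y) →
          K a b i P0 (ins (i + 1) z v) = (c * a) * Q0 v := by
        intro v hl hvz
        unfold K
        rw [sw_ins_at i z v (by omega), h0 (i + 1) (by omega) (by omega) v hl hvz, h1 v hl hvz]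
        unfold wt
        rw [if_pos (des_ins_at_min (by omega) hvz)]
        ring
      have ih := min_P a b R (i + 1) z w (K a b i P0) Q0 (c * a) (by omega) hz (e3 ▸ hv.2) h0'
        h1' v hl hvz
      have hf : ∀ (R : List ℕ) (p : ℕ), p ≤ fMin p R := by
        intro R
        induction R with
        | nil => intro p; exact le_refl _
        | cons i R ih =>
          intro p
          unfold fMin
          split_ifs with h
          · have := ih (i + 1); omega
          · exact ih p
      have hf' := hf R (i + 1)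
      have e4 : fMin (i + 1) R - i = (fMin (i + 1) R - (i + 1)) + 1 := by omega
      simp only [fMin, dMin, if_true, Pf, e4, pow_succ]
      rw [ih]; ring
    · have hNw : ∀ y ∈ sw i w, z < y := fun y hy => hz y ((sw_perm i w).subset hy)
      have h0' : ∀ k, p < k → k ≤ (sw i w).length → ∀ v : List ℕ, v.length = (sw i w).length →
          (∀ y ∈ v, z < y) → K a b i P0 (ins k z v) = 0 := by
        intro k hk hkl v hl hvN
        rw [sw_length] at hl hkl
        obtain ⟨k', v', q1, q2, q3, q4⟩ := sw_ins_cases i k z v (by omega)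
        unfold K
        rw [q1, h0 k (by omega) (by omega) v hl hvN, h0 k' (by omega) (by omega) v'
          (q2.length_eq.trans hl) (fun y hy => hvN y (q2.subset hy))]
        ring
      have h1' : ∀ v : List ℕ, v.length = (sw i w).length → (∀ y ∈ v, z < y) →
          K a b i P0 (ins p z v) = c * K a b i Q0 v := by
        intro v hl hvN
        rw [sw_length] at hl
        unfold K
        rw [wt_ins_lt e1 (by omega), sw_ins_lt i p z v e1 (by omega), h1 v hl hvN,
          h1 (sw i v) (by rw [sw_length]; exact hl) (fun y hy => hvN y ((sw_perm i v).subset hy))]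
        ring
      have ih := min_P a b R p z (sw i w) (K a b i P0) (K a b i Q0) c
        (by rw [sw_length]; exact hp) hNw (e3 ▸ hv.2) h0' h1' v (by rw [sw_length]; exact hl) hvz
      have hne : ¬ i = p := by omega
      have hlt : i < p := by omega
      simp only [fMin, dMin, hne, hlt, if_false, if_true, Pf]
      exact ih
    · obtain ⟨j, rfl⟩ : ∃ j, i = j + 1 := ⟨i - 1, by omega⟩
      simp only [Nat.add_sub_cancel] at e2 e3
      have hNw : ∀ y ∈ sw j w, z < y := fun y hy => hz y ((sw_perm j w).subset hy)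
      have h0' : ∀ k, p < k → k ≤ (sw j w).length → ∀ v : List ℕ, v.length = (sw j w).length →
          (∀ y ∈ v, z < y) → K a b (j + 1) P0 (ins k z v) = 0 := by
        intro k hk hkl v hl hvN
        rw [sw_length] at hl hkl
        obtain ⟨k', v', q1, q2, q3, q4⟩ := sw_ins_cases (j + 1) k z v (by omega)
        unfold K
        rw [q1, h0 k (by omega) (by omega) v hl hvN, h0 k' (by omega) (by omega) v'
          (q2.length_eq.trans hl) (fun y hy => hvN y (q2.subset hy))]
        ring
      have h1' : ∀ v : List ℕ, v.length = (sw j w).length → (∀ y ∈ v, z < y) →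
          K a b (j + 1) P0 (ins p z v) = c * K a b j Q0 v := by
        intro v hl hvN
        rw [sw_length] at hl
        unfold K
        rw [wt_ins_gt (by omega), sw_ins_gt p j z v (by omega), h1 v hl hvN,
          h1 (sw j v) (by rw [sw_length]; exact hl) (fun y hy => hvN y ((sw_perm j v).subset hy))]
        ring
      have ih := min_P a b R p z (sw j w) (K a b (j + 1) P0) (K a b j Q0) c
        (by rw [sw_length]; exact hp) hNw (e3 ▸ hv.2) h0' h1' v (by rw [sw_length]; exact hl) hvz
      have hne : ¬ j + 1 = p := by omega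
      have hne' : ¬ j + 1 < p := by omega
      simp only [fMin, dMin, hne, hne', if_false, Pf, Nat.add_sub_cancel]
      exact ih

/-! ### walkers -/

/-- averaging operator -/
noncomputable def Aop (a b : ℝ) (i : ℕ) (f : ℕ → ℝ) : ℕ → ℝ :=
  fun k => if k = i ∨ k = i + 1 then a * f i + b * f (i + 1) else f k

/-- backward evolution -/
noncomputable def gf (a b : ℝ) (e : ℕ → ℝ) : List ℕ → (ℕ → ℝ)
  | [] => e
  | i :: R => Aop a b i (gf a b e R)

theorem gf_append (a b : ℝ) (e : ℕ → ℝ) : ∀ (R S : List ℕ),
    gf a b e (R ++ S) = gf a b (gf a b e S) R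
  | [], S => rfl
  | i :: R, S => by simp only [List.cons_append, gf, gf_append a b e R S]

theorem Aop_comm (a b : ℝ) {i j : ℕ} (h : Far i j) (f : ℕ → ℝ) :
    Aop a b i (Aop a b j f) = Aop a b j (Aop a b i f) := by
  unfold Far at h
  funext k
  unfold Aop
  have h1 : ¬ (i = j ∨ i = j + 1) := by omega
  have h2 : ¬ (i + 1 = j ∨ i + 1 = j + 1) := by omega
  have h3 : ¬ (j = i ∨ j = i + 1) := by omega
  have h4 : ¬ (j + 1 = i ∨ j + 1 = i + 1) := by omega
  simp only [h1, h2, h3, h4, if_false]
  by_cases hk : k = i ∨ k = i + 1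
  · have hk' : ¬ (k = j ∨ k = j + 1) := by omega
    simp only [hk, hk', if_true, if_false]
  · simp only [hk, if_false]

theorem comm_gf (a b : ℝ) (e : ℕ → ℝ) {R S : List ℕ} (h : Comm R S) :
    gf a b e R = gf a b e S := by
  induction h with
  | refl => rfl
  | tail _ h2 ih =>
    rw [ih]
    obtain ⟨C, D, i, j, hf, rfl, rfl⟩ := h2
    simp only [gf_append, List.append_assoc, gf]
    rw [Aop_comm a b hf]

theorem gf_above (a b : ℝ) (e : ℕ → ℝ) (k : ℕ) : ∀ (R : List ℕ), (∀ x ∈ R, x + 1 < k) →
    gf a b e R k = e k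
  | [], _ => rfl
  | i :: R, h => by
    have h1 := h i List.mem_cons_self
    have h2 : ¬ (k = i ∨ k = i + 1) := by omega
    simp only [gf, Aop, h2, if_false]
    exact gf_above a b e k R (fun x hx => h x (List.mem_cons_of_mem _ hx))

/-- position indicator -/
def ind (f : ℕ) : ℕ → ℝ := fun k => if k = f then 1 else 0

theorem gf_min {a b : ℝ} (hb : 0 < b) : ∀ (R : List ℕ) (p z : ℕ) (v : List ℕ),
    p ≤ v.length → (∀ y ∈ v, z < y) → valid (ins p z v) R →
    (∀ k < p, gf a b (ind (fMin p R)) R k = 0) ∧ 0 < gf a b (ind (fMin p R)) R p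
  | [], p, z, v, _, _, _ => by
    refine ⟨fun k hk => ?_, ?_⟩
    · show (if k = p then (1 : ℝ) else 0) = 0
      rw [if_neg (by omega)]
    · show 0 < (if p = p then (1 : ℝ) else 0)
      rw [if_pos rfl]; norm_num
  | i :: R, p, z, v, hp, hz, hv => by
    rw [valid_cons] at hv
    rcases min_step hp hz hv.1 with ⟨e1, e2, e3⟩ | ⟨e1, e2, e3, _⟩ | ⟨e1, e2, e3, _⟩
    · subst e1
      obtain ⟨h1, h2⟩ := gf_min (a := a) hb R (i + 1) z v (by omega) hz (e3 ▸ hv.2)
      simp only [fMin, if_true, gf]
      constructor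
      · intro k hk
        have h3 : ¬ (k = i ∨ k = i + 1) := by omega
        simp only [Aop, h3, if_false]
        exact h1 k (by omega)
      · simp only [Aop, true_or, if_true]
        rw [h1 i (by omega)]
        have := mul_pos hb h2
        linarith
    · have hz' : ∀ y ∈ sw i v, z < y := fun y hy => hz y ((sw_perm i v).subset hy)
      obtain ⟨h1, h2⟩ := gf_min (a := a) hb R p z (sw i v) (by rw [sw_length]; exact hp) hz'
        (e3 ▸ hv.2)
      have hne : ¬ i = p := by omega
      simp only [fMin, hne, if_false, gf]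
      constructor
      · intro k hk
        unfold Aop
        split_ifs
        · rw [h1 i (by omega), h1 (i + 1) (by omega)]; ring
        · exact h1 k hk
      · have h3 : ¬ (p = i ∨ p = i + 1) := by omega
        simp only [Aop, h3, if_false]
        exact h2
    · have hz' : ∀ y ∈ sw (i - 1) v, z < y := fun y hy => hz y ((sw_perm (i - 1) v).subset hy)
      obtain ⟨h1, h2⟩ := gf_min (a := a) hb R p z (sw (i - 1) v) (by rw [sw_length]; exact hp) hz'
        (e3 ▸ hv.2)
      have hne : ¬ i = p := by omega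
      simp only [fMin, hne, if_false, gf]
      constructor
      · intro k hk
        have h3 : ¬ (k = i ∨ k = i + 1) := by omega
        simp only [Aop, h3, if_false]
        exact h1 k hk
      · have h3 : ¬ (p = i ∨ p = i + 1) := by omega
        simp only [Aop, h3, if_false]
        exact h2

theorem dn_lt : ∀ (m k : ℕ), ∀ x ∈ dn m k, x < m + k
  | m, 0, x, hx => by simp [dn] at hx
  | m, k + 1, x, hx => by
    unfold dn at hx
    rcases List.mem_cons.mp hx with rfl | hx
    · omega
    · have := dn_lt m k x hx; omega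

/-- the probability to be absorbed, seen from the top of a descending line -/
noncomputable def Phi (a b : ℝ) (m : ℕ) (f : ℕ → ℝ) : ℕ → ℝ
  | 0 => f m
  | k + 1 => a * Phi a b m f k + b * f (m + k + 1)

theorem gf_dn (a b : ℝ) (m : ℕ) (f : ℕ → ℝ) : ∀ k, gf a b f (dn m k) (m + k) = Phi a b m f k
  | 0 => rfl
  | k + 1 => by
    have h1 := gf_dn a b m f k
    have h2 : gf a b f (dn m k) (m + k + 1) = f (m + k + 1) := by
      apply gf_above
      intro x hx
      have := dn_lt m k x hx
      omega
    simp only [dn, gf, Phi, Aop]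
    rw [if_pos (Or.inr (by omega)), h1, h2]

theorem Phi_zero (a b : ℝ) (m : ℕ) (f : ℕ → ℝ) : ∀ k, (∀ j ≤ m + k, f j = 0) → Phi a b m f k = 0
  | 0, h => h m (by omega)
  | k + 1, h => by
    simp only [Phi]
    rw [Phi_zero a b m f k (fun j hj => h j (by omega)), h (m + k + 1) (by omega)]
    ring

theorem Phi_lt {a b : ℝ} (ha : 0 < a) (hb : 0 < b) (hab : a + b = 1) (m P : ℕ) (f : ℕ → ℝ)
    (h0 : ∀ j < P + 1, f j = 0) (h1 : 0 < f (P + 1)) (hm : m + 1 ≤ P) :
    ∀ k, P + 1 ≤ m + k → Phi a b m (Aop a b P f) k < Phi a b m f k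
  | 0, h => by omega
  | k + 1, h => by
    simp only [Phi]
    rcases Nat.eq_or_lt_of_le h with h2 | h2
    · obtain ⟨l, rfl⟩ : ∃ l, k = l + 1 := ⟨k - 1, by omega⟩
      have e1 : P = m + l + 1 := by omega
      subst e1
      have h3 : Phi a b m f (l + 1) = 0 := Phi_zero a b m f (l + 1) (fun j hj => h0 j (by omega))
      have h4 : Phi a b m (Aop a b (m + l + 1) f) l = 0 := by
        apply Phi_zero
        intro j hj
        have h5 : ¬ (j = m + l + 1 ∨ j = m + l + 1 + 1) := by omega
        simp only [Aop, h5, if_false]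
        exact h0 j (by omega)
      rw [h3]
      simp only [Phi, h4]
      have h5 : Aop a b (m + l + 1) f (m + l + 1) = b * f (m + l + 1 + 1) := by
        simp only [Aop, true_or, if_true]
        rw [h0 (m + l + 1) (by omega)]; ring
      have h6 : Aop a b (m + l + 1) f (m + (l + 1) + 1) = b * f (m + l + 1 + 1) := by
        simp only [Aop]
        rw [if_pos (Or.inr (by omega)), h0 (m + l + 1) (by omega)]; ring
      rw [h5, h6]
      have h7 : m + (l + 1) + 1 = m + l + 1 + 1 := by omega
      rw [h7]
      set x := f (m + l + 1 + 1) with hx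
      have h8 : b * (1 + a) < 1 := by
        have : b = 1 - a := by linarith
        rw [this]; nlinarith
      have h9 : 0 < b * x := mul_pos hb h1
      nlinarith [mul_lt_mul_of_pos_left h8 h9]
    · have ih := Phi_lt ha hb hab m P f h0 h1 hm k (by omega)
      have h5 : Aop a b P f (m + k + 1) = f (m + k + 1) := by
        have h6 : ¬ (m + k + 1 = P ∨ m + k + 1 = P + 1) := by omega
        simp only [Aop, h6, if_false]
      rw [h5]
      have := mul_lt_mul_of_pos_left ih ha
      linarith

/-- `p, p+1, ..., p+t-1` -/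
def up (p : ℕ) : ℕ → List ℕ
  | 0 => []
  | t + 1 => p :: up (p + 1) t

theorem gf_up {a b : ℝ} (ha : 0 < a) (hb : 0 < b) (hab : a + b = 1) (m k : ℕ) :
    ∀ (t p : ℕ) (f : ℕ → ℝ), (∀ j < p + t, f j = 0) → 0 < f (p + t) → m + 1 ≤ p →
      p + t ≤ m + k →
      (∀ j < p, gf a b f (up p t) j = 0) ∧ 0 < gf a b f (up p t) p ∧
      Phi a b m (gf a b f (up p t)) k ≤ Phi a b m f k ∧
      (0 < t → Phi a b m (gf a b f (up p t)) k < Phi a b m f k)
  | 0, p, f, h0, h1, _, _ => by
    simp only [up, gf]
    exact ⟨h0, h1, le_refl _, fun h => absurd h (lt_irrefl _)⟩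
  | t + 1, p, f, h0, h1, hm, hk => by
    obtain ⟨i1, i2, i3, _⟩ := gf_up ha hb hab m k t (p + 1) f (fun j hj => h0 j (by omega))
      (by rw [show p + 1 + t = p + (t + 1) by omega]; exact h1) (by omega) (by omega)
    set g := gf a b f (up (p + 1) t) with hg
    have h2 := Phi_lt ha hb hab m p g i1 i2 hm k (by omega)
    simp only [up, gf]
    rw [← hg]
    refine ⟨?_, ?_, le_of_lt (lt_of_lt_of_le h2 i3), fun _ => lt_of_lt_of_le h2 i3⟩
    · intro j hj
      have h3 : ¬ (j = p ∨ j = p + 1) := by omega
      simp only [Aop, h3, if_false]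
      exact i1 j (by omega)
    · simp only [Aop, true_or, if_true]
      rw [i1 p (by omega)]
      have := mul_pos hb i2
      linarith

end Pool.Agent.BSq
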