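import Mathlib

/-!
# Words, commutation equivalence and the arrangements they act on

Letters are natural numbers; the letter `i` exchanges the entries at the (zero based) positions
`i` and `i+1` of a list.
-/

namespace Pool.Agent.BSq

open List

/-! ## Commutation equivalence -/

/-- The letters `i` and `j` commute. -/
def Far (i j : ℕ) : Prop := i + 1 < j ∨ j + 1 < i

theorem Far.symm {i j : ℕ} (h : Far i j) : Far j i := Or.symm h

/-- One commutation move. -/
def Step (R R' : List ℕ) : Prop :=
  ∃ A B i j, Far i j ∧ R = A ++ [i, j] ++ B ∧ R' = A ++ [j, i] ++ B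

/-- Commutation equivalence. -/
def Comm (R R' : List ℕ) : Prop := Relation.ReflTransGen Step R R'

theorem Step.symm {R R' : List ℕ} (h : Step R R') : Step R' R := by
  obtain ⟨A, B, i, j, hf, h1, h2⟩ := h
  exact ⟨A, B, j, i, hf.symm, h2, h1⟩

theorem Comm.refl (R : List ℕ) : Comm R R := Relation.ReflTransGen.refl

theorem Comm.trans {R S T : List ℕ} (h : Comm R S) (h' : Comm S T) : Comm R T :=
  Relation.ReflTransGen.trans h h'

theorem Comm.symm {R S : List ℕ} (h : Comm R S) : Comm S R := by
  induction h with
  | refl => exact Comm.refl _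
  | tail _ h2 ih => exact Relation.ReflTransGen.head h2.symm ih

theorem Comm.append {R S : List ℕ} (h : Comm R S) (A B : List ℕ) :
    Comm (A ++ R ++ B) (A ++ S ++ B) := by
  induction h with
  | refl => exact Comm.refl _
  | tail _ h2 ih =>
    refine Relation.ReflTransGen.tail ih ?_
    obtain ⟨C, D, i, j, hf, h1, h2⟩ := h2
    refine ⟨A ++ C, D ++ B, i, j, hf, ?_, ?_⟩
    · rw [h1]; simp
    · rw [h2]; simp

theorem Comm.cons {R S : List ℕ} (h : Comm R S) (i : ℕ) : Comm (i :: R) (i :: S) := by
  simpa using h.append [i] []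

theorem Comm.left {R S : List ℕ} (h : Comm R S) (A : List ℕ) : Comm (A ++ R) (A ++ S) := by
  simpa using h.append A []

theorem Comm.right {R S : List ℕ} (h : Comm R S) (B : List ℕ) : Comm (R ++ B) (S ++ B) := by
  simpa using h.append [] B

theorem comm_bubble (i : ℕ) : ∀ A : List ℕ, (∀ x ∈ A, Far i x) → Comm (A ++ [i]) (i :: A)
  | [], _ => Comm.refl _
  | x :: A, h => by
    have h1 : Comm (x :: (A ++ [i])) (x :: i :: A) :=
      (comm_bubble i A (fun y hy => h y (List.mem_cons_of_mem _ hy))).cons x
    refine h1.trans ?_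
    refine Relation.ReflTransGen.single ⟨[], A, x, i, (h x List.mem_cons_self).symm, ?_, ?_⟩ <;>
      simp

theorem comm_bubble' (i : ℕ) (A B : List ℕ) (h : ∀ x ∈ A, Far i x) :
    Comm (A ++ i :: B) (i :: (A ++ B)) := by
  have := (comm_bubble i A h).right B
  simpa using this

theorem comm_swap_blocks : ∀ (A B : List ℕ), (∀ x ∈ A, ∀ y ∈ B, Far x y) →
    Comm (A ++ B) (B ++ A)
  | [], B, _ => by simpa using Comm.refl B
  | x :: A, B, h => by
    have h1 : Comm (x :: (A ++ B)) (x :: (B ++ A)) :=
      (comm_swap_blocks A B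
        (fun y hy z hz => h y (List.mem_cons_of_mem _ hy) z hz)).cons x
    refine h1.trans ?_
    have := comm_bubble' x B A (fun y hy => h x List.mem_cons_self y hy)
    exact this.symm

/-- Projection to the letters `k` and `k+1`. -/
def proj (k : ℕ) (R : List ℕ) : List ℕ := R.filter (fun x => x = k ∨ x = k + 1)

theorem proj_append (k : ℕ) (R S : List ℕ) : proj k (R ++ S) = proj k R ++ proj k S := by
  simp [proj]

theorem Comm.proj_eq {R S : List ℕ} (h : Comm R S) (k : ℕ) : proj k R = proj k S := by
  induction h with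
  | refl => rfl
  | tail _ h2 ih =>
    rw [ih]
    obtain ⟨C, D, i, j, hf, h1, h2⟩ := h2
    rw [h1, h2]
    simp only [proj_append]
    congr 2
    unfold Far at hf
    by_cases hi : i = k ∨ i = k + 1
    · by_cases hj : j = k ∨ j = k + 1
      · omega
      · simp [proj, hi, hj]
    · by_cases hj : j = k ∨ j = k + 1
      · simp [proj, hi, hj]
      · simp [proj, hi, hj]

/-- If a word starting with `i` has the same projections as `V`, then the first `i` of `V` can be
bubbled to the front. -/
theorem extract_of_proj (i : ℕ) (W V : List ℕ) (h : ∀ k, proj k (i :: W) = proj k V) :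
    ∃ A B, V = A ++ i :: B ∧ (∀ x ∈ A, Far i x) ∧ ∀ k, proj k W = proj k (A ++ B) := by
  have hi : i ∈ V := by
    have h1 := h i
    have h2 : i ∈ proj i (i :: W) := by simp [proj]
    rw [h1] at h2
    exact List.mem_of_mem_filter h2
  obtain ⟨A, B, hV, hA⟩ : ∃ A B, V = A ++ i :: B ∧ i ∉ A := by
    obtain ⟨A, B, h1, h2⟩ := List.eq_append_cons_of_mem hi
    exact ⟨A, B, h1, h2⟩
  have hfar : ∀ x ∈ A, Far i x := by
    intro x hx
    by_contra hc
    unfold Far at hc
    have hxi : x ≠ i := fun e => hA (e ▸ hx)
    rcases Nat.lt_or_ge i x with hlt | hge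
    · have hx' : x = i + 1 := by omega
      have h1 := h i
      rw [hV, proj_append] at h1
      have h3 : (proj i A) ≠ [] := by
        intro e
        have : x ∈ proj i A := by
          simp only [proj, List.mem_filter]
          exact ⟨hx, by simp [hx']⟩
        rw [e] at this; simp at this
      obtain ⟨y, T, hT⟩ := List.exists_cons_of_ne_nil h3
      rw [hT] at h1
      have hy : y ∈ A := by
        have : y ∈ proj i A := by rw [hT]; simp
        exact List.mem_of_mem_filter this
      have h4 : proj i (i :: W) = i :: proj i W := by simp [proj]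
      rw [h4] at h1
      simp only [List.cons_append, List.cons.injEq] at h1
      exact hA (h1.1 ▸ hy)
    · have hx' : x + 1 = i := by omega
      have h1 := h x
      rw [hV, proj_append] at h1
      have h3 : (proj x A) ≠ [] := by
        intro e
        have : x ∈ proj x A := by simp [proj, hx]
        rw [e] at this; simp at this
      obtain ⟨y, T, hT⟩ := List.exists_cons_of_ne_nil h3
      rw [hT] at h1
      have hy : y ∈ A := by
        have : y ∈ proj x A := by rw [hT]; simp
        exact List.mem_of_mem_filter this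
      have h4 : proj x (i :: W) = i :: proj x W := by simp [proj, ← hx']
      rw [h4] at h1
      simp only [List.cons_append, List.cons.injEq] at h1
      exact hA (h1.1 ▸ hy)
  refine ⟨A, B, hV, hfar, ?_⟩
  intro k
  have h1 := h k
  have h2 : proj k V = proj k (i :: (A ++ B)) := by
    rw [hV]; exact (comm_bubble' i A B hfar).proj_eq k
  rw [h2] at h1
  by_cases hk : i = k ∨ i = k + 1
  · simpa [proj, hk] using h1
  · simpa [proj, hk] using h1

theorem comm_of_proj : ∀ (R S : List ℕ), (∀ k, proj k R = proj k S) → Comm R S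
  | [], S, h => by
    cases S with
    | nil => exact Comm.refl _
    | cons x S =>
      have := h x
      simp [proj] at this
  | i :: W, V, h => by
    obtain ⟨A, B, hV, hA, hp⟩ := extract_of_proj i W V h
    have h1 : Comm W (A ++ B) := comm_of_proj W (A ++ B) hp
    rw [hV]
    exact (h1.cons i).trans (comm_bubble' i A B hA).symm

theorem comm_iff_proj {R S : List ℕ} : Comm R S ↔ ∀ k, proj k R = proj k S :=
  ⟨fun h k => h.proj_eq k, comm_of_proj R S⟩

theorem comm_cons_cancel {i : ℕ} {R S : List ℕ} (h : Comm (i :: R) (i :: S)) : Comm R S := by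
  rw [comm_iff_proj] at h ⊢
  intro k
  have h1 := h k
  by_cases hk : i = k ∨ i = k + 1
  · simpa [proj, hk] using h1
  · simpa [proj, hk] using h1

theorem extract_of_comm {i : ℕ} {W V : List ℕ} (h : Comm (i :: W) V) :
    ∃ A B, V = A ++ i :: B ∧ (∀ x ∈ A, Far i x) ∧ Comm W (A ++ B) := by
  obtain ⟨A, B, hV, hA, hp⟩ := extract_of_proj i W V (fun k => h.proj_eq k)
  exact ⟨A, B, hV, hA, comm_of_proj _ _ hp⟩

theorem Comm.length_eq {R S : List ℕ} (h : Comm R S) : R.length = S.length := by
  induction h with
  | refl => rfl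
  | tail _ h2 ih =>
    rw [ih]
    obtain ⟨C, D, i, j, hf, h1, h2⟩ := h2
    rw [h1, h2]; simp

theorem Comm.map {R S : List ℕ} (h : Comm R S) (f : ℕ → ℕ)
    (hf : ∀ i j, Far i j → Far (f i) (f j)) : Comm (R.map f) (S.map f) := by
  induction h with
  | refl => exact Comm.refl _
  | tail _ h2 ih =>
    refine Relation.ReflTransGen.tail ih ?_
    obtain ⟨C, D, i, j, hij, h1, h2⟩ := h2
    refine ⟨C.map f, D.map f, f i, f j, hf i j hij, ?_, ?_⟩
    · rw [h1]; simp
    · rw [h2]; simp

end Pool.Agent.BSq
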